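import Pool.Agent.Helper2.PGN.G2D

/-!
PrimeGeometricGenus (MP_b8862a_ag), construction (6): the Hodge numbers `2`, `3`, `2` and the group `G_2`.
-/

set_option linter.unusedSectionVars false

open Matrix

namespace MH

namespace G2

/-- the contraction with the cross product -/
noncomputable def FF : Matrix (Fin 7) (Fin 7) ℂ →ₗ[ℂ] Matrix (Fin 7) (Fin 7) ℂ where
  toFun X := ∑ a, (((qz a : ℤ) : ℂ) * (iR ℂ (Lz a) * X).trace) • iR ℂ (Lz a)
  map_add' X Y := by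
    rw [← Finset.sum_add_distrib]
    refine Finset.sum_congr rfl fun a _ => ?_
    rw [mul_add, Matrix.trace_add, mul_add, add_smul]
  map_smul' c X := by
    rw [RingHom.id_apply, Finset.smul_sum]
    refine Finset.sum_congr rfl fun a _ => ?_
    rw [mul_smul_comm, Matrix.trace_smul, smul_smul, smul_eq_mul]
    congr 1
    ring

theorem FF_apply (X : Matrix (Fin 7) (Fin 7) ℂ) :
    FF X = ∑ a, (((qz a : ℤ) : ℂ) * (iR ℂ (Lz a) * X).trace) • iR ℂ (Lz a) := rfl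

theorem FF_rat (A : Matrix (Fin 7) (Fin 7) ℚ) : ∃ B : Matrix (Fin 7) (Fin 7) ℚ, FF (toC A) = toC B := by
  refine ⟨∑ a, (((qz a : ℤ) : ℚ) * (iR ℚ (Lz a) * A).trace) • iR ℚ (Lz a), ?_⟩
  have htr : ∀ M : Matrix (Fin 7) (Fin 7) ℚ, (toC M).trace = ((M.trace : ℚ) : ℂ) := by
    intro M
    simp [Matrix.trace, toC]
  have hmul : ∀ M N : Matrix (Fin 7) (Fin 7) ℚ, toC M * toC N = toC (M * N) := by
    intro M N
    rw [toC, toC, toC, Matrix.map_mul]
  rw [FF_apply]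
  ext i j
  rw [Matrix.sum_apply]
  have hR : toC (∑ a, (((qz a : ℤ) : ℚ) * (iR ℚ (Lz a) * A).trace) • iR ℚ (Lz a)) i j =
      ∑ a, algebraMap ℚ ℂ ((((qz a : ℤ) : ℚ) * (iR ℚ (Lz a) * A).trace) * iR ℚ (Lz a) i j) := by
    rw [toC, Matrix.map_apply, Matrix.sum_apply, map_sum]
    rfl
  rw [hR]
  refine Finset.sum_congr rfl fun a _ => ?_
  rw [Matrix.smul_apply, smul_eq_mul, ← toC_iR, hmul, htr, map_mul, map_mul]
  simp [toC]

/-- the contraction commutes with the skew derivations -/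
theorem FF_comm {D : Matrix (Fin 7) (Fin 7) ℂ} (hD : IsDer D) (hs : Dᵀ * iR ℂ Qz = -(iR ℂ Qz * D))
    (X : Matrix (Fin 7) (Fin 7) ℂ) : FF (D * X - X * D) = D * FF X - FF X * D := by
  have hd : ∀ a, D * iR ℂ (Lz a) - iR ℂ (Lz a) * D = ∑ b, D b a • iR ℂ (Lz b) := by
    intro a
    have h1 := hD (Pi.single a 1)
    rw [LL_single] at h1
    rw [h1, LL]
    refine Finset.sum_congr rfl fun b _ => ?_
    rw [Matrix.mulVec_single_one]
    rfl
  have hQ : iR ℂ Qz = Matrix.diagonal fun i => ((qz i : ℤ) : ℂ) := by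
    rw [iR, Qz, Matrix.diagonal_map (map_zero _)]
    rfl
  have hq : ∀ a b, D b a * ((qz b : ℤ) : ℂ) = -(((qz a : ℤ) : ℂ) * D a b) := by
    intro a b
    have h1 := congrFun (congrFun hs a) b
    rw [hQ, Matrix.mul_diagonal, Matrix.neg_apply, Matrix.diagonal_mul, Matrix.transpose_apply] at h1
    exact h1
  have h2 : ∀ a, ((qz a : ℤ) : ℂ) * ((qz a : ℤ) : ℂ) = 1 := by
    intro a
    have h3 : ∀ a, qz a * qz a = 1 := by decide
    rw [← Int.cast_mul, h3, Int.cast_one]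
  -- symmetric form of the skewness
  have hq' : ∀ a b, ((qz a : ℤ) : ℂ) * D b a = -(((qz b : ℤ) : ℂ) * D a b) := by
    intro a b
    have h3 := hq a b
    calc ((qz a : ℤ) : ℂ) * D b a = ((qz a : ℤ) : ℂ) * (((qz b : ℤ) : ℂ) * ((qz b : ℤ) : ℂ)) * D b a := by rw [h2, mul_one]
      _ = ((qz a : ℤ) : ℂ) * ((qz b : ℤ) : ℂ) * (D b a * ((qz b : ℤ) : ℂ)) := by ring
      _ = -((((qz a : ℤ) : ℂ) * ((qz a : ℤ) : ℂ)) * (((qz b : ℤ) : ℂ) * D a b)) := by rw [h3]; ring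
      _ = _ := by rw [h2, one_mul]
  have htr : ∀ a, (iR ℂ (Lz a) * (D * X - X * D)).trace = -∑ b, D b a * (iR ℂ (Lz b) * X).trace := by
    intro a
    have e1 : (iR ℂ (Lz a) * (D * X - X * D)).trace = -((D * iR ℂ (Lz a) - iR ℂ (Lz a) * D) * X).trace := by
      rw [mul_sub, Matrix.trace_sub, sub_mul, Matrix.trace_sub, ← mul_assoc (iR ℂ (Lz a)) X D,
        Matrix.trace_mul_comm (iR ℂ (Lz a) * X) D, ← mul_assoc, ← mul_assoc]
      ring
    rw [e1, hd, Finset.sum_mul, Matrix.trace_sum]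
    congr 1
    refine Finset.sum_congr rfl fun b _ => ?_
    rw [smul_mul_assoc, Matrix.trace_smul, smul_eq_mul]
  have l1 : FF (D * X - X * D) =
      ∑ a, ∑ b, (-(((qz a : ℤ) : ℂ) * D b a * (iR ℂ (Lz b) * X).trace)) • iR ℂ (Lz a) := by
    rw [FF_apply]
    refine Finset.sum_congr rfl fun a _ => ?_
    rw [htr, mul_neg, Finset.mul_sum, ← Finset.sum_neg_distrib, Finset.sum_smul]
    refine Finset.sum_congr rfl fun b _ => ?_
    congr 1
    ring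
  have l2 : D * FF X - FF X * D =
      ∑ b, ∑ a, (((qz b : ℤ) : ℂ) * (iR ℂ (Lz b) * X).trace * D a b) • iR ℂ (Lz a) := by
    rw [FF_apply, Finset.mul_sum, Finset.sum_mul, ← Finset.sum_sub_distrib]
    refine Finset.sum_congr rfl fun b _ => ?_
    rw [mul_smul_comm, smul_mul_assoc, ← smul_sub, hd, Finset.smul_sum]
    refine Finset.sum_congr rfl fun a _ => ?_
    rw [smul_smul]
  rw [l1, l2, Finset.sum_comm]
  refine Finset.sum_congr rfl fun b _ => Finset.sum_congr rfl fun a _ => ?_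
  rw [hq' a b]
  congr 1
  ring

theorem hD_base : Pb 2 - Pb 0 = (-Complex.I) • iR ℂ Jz := by
  simp only [Pb, PGN.tri_two, PGN.tri_zero, PA, PB]
  module

theorem isDer_base : IsDer (Pb 2 - Pb 0) := by
  rw [hD_base]
  intro v
  have h1 := isDer_iR (R := ℂ) Jz_der v
  rw [smul_mul_assoc, mul_smul_comm, ← smul_sub, h1, Matrix.smul_mulVec, LL_smul]

theorem skew_base : (Pb 2 - Pb 0)ᵀ * iR ℂ Qz = -(iR ℂ Qz * (Pb 2 - Pb 0)) := by
  have h1 : (iR ℂ Jz)ᵀ * iR ℂ Qz = -(iR ℂ Qz * iR ℂ Jz) := by rw [← iR_tr, ← iR_mul, Jz_skew, iR_neg, iR_mul]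
  rw [hD_base, Matrix.transpose_smul, smul_mul_assoc, h1, mul_smul_comm, smul_neg]

theorem isAut_rC {g : Matrix (Fin 7) (Fin 7) ℝ} (hg : IsAut g) : IsAut (rC g) := by
  have hb : ∀ a, rC g * iR ℂ (Lz a) = (∑ b, (rC g) b a • iR ℂ (Lz b)) * rC g := by
    intro a
    have h1 := hg (Pi.single a 1)
    rw [LL_single] at h1
    have h2 := congrArg rC h1
    rw [rC_mul, rC_mul, rC_iR] at h2
    rw [h2]
    congr 1
    ext i j
    simp only [LL, rC, Matrix.map_apply, Matrix.sum_apply, Matrix.smul_apply, smul_eq_mul, Complex.ofReal_sum,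
      Complex.ofReal_mul]
    refine Finset.sum_congr rfl fun b _ => ?_
    rw [Matrix.mulVec_single_one]
    simp [iR]
  intro v
  have e1 : rC g * LL ℂ v = ∑ a, v a • (rC g * iR ℂ (Lz a)) := by
    simp only [LL, Finset.mul_sum, mul_smul_comm]
  rw [e1]
  simp only [hb, LL, Matrix.mulVec, dotProduct, Finset.sum_mul, Finset.smul_sum, smul_mul_assoc, smul_smul, Finset.sum_smul]
  rw [Finset.sum_comm]
  refine Finset.sum_congr rfl fun b _ => Finset.sum_congr rfl fun a _ => ?_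
  rw [mul_comm]

theorem isDer_Pf {g : Matrix (Fin 7) (Fin 7) ℝ} (hg : g ∈ GT) : IsDer (Pf g 2 - Pf g 0) := by
  have h1 : Pf g 2 - Pf g 0 = rC g * (Pb 2 - Pb 0) * rC (gi g) := by
    rw [Pf, Pf, mul_sub, sub_mul]
  rw [h1]
  exact IsDer.conj (isAut_rC hg.2) (by rw [← rC_mul, mul_gi hg, rC_one]) (by rw [← rC_mul, gi_mul hg, rC_one]) isDer_base

theorem skew_Pf {g : Matrix (Fin 7) (Fin 7) ℝ} (hg : g ∈ GT) :
    (Pf g 2 - Pf g 0)ᵀ * iR ℂ Qz = -(iR ℂ Qz * (Pf g 2 - Pf g 0)) := by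
  have h1 : Pf g 2 - Pf g 0 = rC g * (Pb 2 - Pb 0) * rC (gi g) := by
    rw [Pf, Pf, mul_sub, sub_mul]
  have hq : (rC g)ᵀ * iR ℂ Qz * rC g = iR ℂ Qz := by
    rw [← rC_iR, ← rC_transpose, ← rC_mul, ← rC_mul, hg.1]
  have c1 : rC g * rC (gi g) = 1 := by rw [← rC_mul, mul_gi hg, rC_one]
  have hq1 : (rC g)ᵀ * iR ℂ Qz = iR ℂ Qz * rC (gi g) := by
    calc (rC g)ᵀ * iR ℂ Qz = (rC g)ᵀ * iR ℂ Qz * (rC g * rC (gi g)) := by rw [c1, mul_one]
      _ = (rC g)ᵀ * iR ℂ Qz * rC g * rC (gi g) := by simp only [mul_assoc]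
      _ = _ := by rw [hq]
  have c3 : (rC (gi g))ᵀ * (rC g)ᵀ = 1 := by rw [← Matrix.transpose_mul, c1, Matrix.transpose_one]
  have hq2 : (rC (gi g))ᵀ * iR ℂ Qz = iR ℂ Qz * rC g := by
    calc (rC (gi g))ᵀ * iR ℂ Qz = (rC (gi g))ᵀ * ((rC g)ᵀ * iR ℂ Qz * rC g) := by rw [hq]
      _ = ((rC (gi g))ᵀ * (rC g)ᵀ) * iR ℂ Qz * rC g := by simp only [mul_assoc]
      _ = _ := by rw [c3, one_mul]
  rw [h1, Matrix.transpose_mul, Matrix.transpose_mul]
  calc (rC (gi g))ᵀ * ((Pb 2 - Pb 0)ᵀ * (rC g)ᵀ) * iR ℂ Qz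
      = (rC (gi g))ᵀ * (Pb 2 - Pb 0)ᵀ * ((rC g)ᵀ * iR ℂ Qz) := by simp only [mul_assoc]
    _ = (rC (gi g))ᵀ * ((Pb 2 - Pb 0)ᵀ * iR ℂ Qz) * rC (gi g) := by rw [hq1]; simp only [mul_assoc]
    _ = -(((rC (gi g))ᵀ * iR ℂ Qz) * (Pb 2 - Pb 0) * rC (gi g)) := by
        rw [skew_base, mul_neg, neg_mul]; simp only [mul_assoc]
    _ = _ := by rw [hq2]; simp only [mul_assoc]

/-- the sign change of the first two coordinates -/
def Gz : Matrix (Fin 7) (Fin 7) ℤ := Matrix.diagonal ![-1, -1, 1, 1, 1, 1, 1]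

theorem Gz_sq : Gz * Gz = 1 := by decide +kernel

/-- the sign change as an element of the linear group -/
noncomputable def g0 : GL (Fin 7) ℂ :=
  ⟨iR ℂ Gz, iR ℂ Gz, by rw [← iR_mul, Gz_sq, iR_one], by rw [← iR_mul, Gz_sq, iR_one]⟩

theorem g0_det : (g0 : Matrix (Fin 7) (Fin 7) ℂ).det = 1 := by
  have h1 : (g0 : Matrix (Fin 7) (Fin 7) ℂ) = (Int.castRingHom ℂ).mapMatrix Gz := rfl
  have h2 : Gz.det = 1 := by
    rw [Gz, Matrix.det_diagonal]
    decide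
  rw [h1, ← RingHom.map_det, h2, map_one]

theorem isGQ_g0 : IsGQ 2 Q7 g0 := by
  refine ⟨1, fun _ => rfl, ?_, fun _ => ?_⟩
  · rw [one_pow, one_smul, toC_Q7]
    show (iR ℂ Gz)ᵀ * iR ℂ Qz * iR ℂ Gz = iR ℂ Qz
    rw [← iR_tr, ← iR_mul, ← iR_mul]
    congr 1
    decide +kernel
  · rw [g0_det, one_pow]

theorem FF_L3 : FF (iR ℂ (Lz 3)) = (-6 : ℂ) • iR ℂ (Lz 3) := by
  rw [FF_apply, Finset.sum_eq_single 3]
  · rw [← iR_mul, show (iR ℂ (Lz 3 * Lz 3)).trace = (((Lz 3 * Lz 3).trace : ℤ) : ℂ) by simp [Matrix.trace, iR],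
      tr_LL, if_pos rfl, ← Int.cast_mul]
    congr 1
    have h1 : qz 3 * (-6 * qz 3) = -6 := by decide
    rw [h1]
    norm_num
  · intro a _ ha
    rw [← iR_mul, show (iR ℂ (Lz a * Lz 3)).trace = (((Lz a * Lz 3).trace : ℤ) : ℂ) by simp [Matrix.trace, iR],
      tr_LL, if_neg ha, Int.cast_zero, mul_zero, zero_smul]
  · intro h
    exact absurd (Finset.mem_univ _) h

theorem not_mem {g : Matrix (Fin 7) (Fin 7) ℝ} (hg : g ∈ GT) : g0 ∉ MT {0, 1, 2} (Pf g) := by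
  intro h
  have H := isHW_Pf hg
  have hsum : Pf g 0 + Pf g 1 + Pf g 2 = 1 := by
    have h1 := H.sum
    rwa [Finset.sum_insert (by decide), Finset.sum_insert (by decide), Finset.sum_singleton, ← add_assoc] at h1
  have h2 := SH94.MT_comm H.mul hsum FF FF_rat (FF_comm (isDer_Pf hg) (skew_Pf hg)) h (iR ℂ (Lz 3))
  have h3 : ((g0 : GL (Fin 7) ℂ) : Matrix (Fin 7) (Fin 7) ℂ) = iR ℂ Gz := rfl
  have h4 : ((g0⁻¹ : GL (Fin 7) ℂ) : Matrix (Fin 7) (Fin 7) ℂ) = iR ℂ Gz := rfl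
  rw [h3, h4, FF_L3, ← iR_mul, ← iR_mul, mul_smul_comm, smul_mul_assoc, ← iR_mul, ← iR_mul] at h2
  have h5 := congrFun (congrFun h2 4) 0
  rw [FF_apply, Matrix.sum_apply, Finset.sum_eq_single 3] at h5
  · rw [Matrix.smul_apply, Matrix.smul_apply, smul_eq_mul, smul_eq_mul, ← iR_mul,
      show (iR ℂ (Lz 3 * (Gz * Lz 3 * Gz))).trace = (((Lz 3 * (Gz * Lz 3 * Gz)).trace : ℤ) : ℂ) by simp [Matrix.trace, iR],
      iR, iR, Matrix.map_apply, Matrix.map_apply] at h5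
    have a1 : (Lz 3 * (Gz * Lz 3 * Gz)).trace = -2 := by decide +kernel
    have a2 : (Gz * Lz 3 * Gz) 4 0 = 1 := by decide +kernel
    have a3 : (Lz 3) 4 0 = -1 := by decide +kernel
    have a4 : qz 3 = -1 := by decide
    rw [a1, a2, a3, a4] at h5
    norm_num at h5
  · intro a _ ha
    have a5 : ∀ a : Fin 7, a ≠ 3 → (Lz a) 4 0 = 0 := by decide +kernel
    rw [Matrix.smul_apply, iR, Matrix.map_apply, a5 a ha, map_zero, smul_zero]
  · intro h
    exact absurd (Finset.mem_univ _) h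

theorem rank_Pf {g : Matrix (Fin 7) (Fin 7) ℝ} (hg : g ∈ GT) (p : ℤ) : (Pf g p).rank = (Pb p).rank :=
  rank_conj27 (by rw [← rC_mul, mul_gi hg, rC_one]) (by rw [← rC_mul, gi_mul hg, rC_one]) _

theorem tr_iR (M : Matrix (Fin 7) (Fin 7) ℤ) : (iR ℂ M).trace = ((M.trace : ℤ) : ℂ) := by
  simp [Matrix.trace, iR]

theorem rank_base : (Pb 2).rank = 2 ∧ (Pb 1).rank = 3 ∧ (Pb 0).rank = 2 := by
  have t1 : (1 - Pz).trace = 4 := by decide +kernel
  refine ⟨?_, ?_, ?_⟩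
  · have h1 := trace_eq_rank (P := Pb 2) (by simp only [Pb, PGN.tri_two]; exact AA)
    simp only [Pb, PGN.tri_two] at h1 ⊢
    rw [PA, Matrix.trace_smul, Matrix.trace_sub, Matrix.trace_smul, tr_iR, tr_iR, t1, Jz_trace] at h1
    have h2 : ((PA.rank : ℕ) : ℂ) = ((2 : ℕ) : ℂ) := by
      rw [PA, ← h1]
      norm_num
    exact_mod_cast h2
  · have h1 := trace_eq_rank (P := Pb 1) (by simp only [Pb, PGN.tri_one]; exact e9)
    simp only [Pb, PGN.tri_one] at h1 ⊢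
    rw [tr_iR, Pz_trace] at h1
    have h2 : (((iR ℂ Pz).rank : ℕ) : ℂ) = ((3 : ℕ) : ℂ) := by
      rw [← h1]
      norm_num
    exact_mod_cast h2
  · have h1 := trace_eq_rank (P := Pb 0) (by simp only [Pb, PGN.tri_zero]; exact BB)
    simp only [Pb, PGN.tri_zero] at h1 ⊢
    rw [PB, Matrix.trace_smul, Matrix.trace_add, Matrix.trace_smul, tr_iR, tr_iR, t1, Jz_trace] at h1
    have h2 : ((PB.rank : ℕ) : ℂ) = ((2 : ℕ) : ℂ) := by
      rw [PB, ← h1]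
      norm_num
    exact_mod_cast h2

end G2

/-- There is a polarised rational Hodge structure with the Hodge numbers `2`, `3`, `2`, with the endomorphisms `ℚ`, the
Mumford-Tate group of which is smaller than the group of similitudes. -/
theorem sharp_G2 : ∃ (n : Type) (_ : Fintype n) (_ : DecidableEq n) (Q : Matrix n n ℚ)
    (P : ℤ → Matrix n n ℂ), IsHW 2 Q {0, 1, 2} P ∧
      (∀ A : Matrix n n ℚ, (∀ p, toC A * P p = P p * toC A) → ∃ c : ℚ, A = c • (1 : Matrix n n ℚ)) ∧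
      (P 2).rank = 2 ∧ (P 1).rank = 3 ∧ (P 0).rank = 2 ∧
      ∃ g : GL n ℂ, IsGQ 2 Q g ∧ g ∉ MT {0, 1, 2} P := by
  obtain ⟨⟨g, hg⟩, hend⟩ := exists_generic27 (T := G2.GT)
    (fun t => G2.Pf (t : Matrix (Fin 7) (Fin 7) ℝ))
    (fun p => (G2.Pf_cont p).comp continuous_subtype_val)
    (fun U hU hne A hA => G2.hgen6 U hU hne A hA)
  obtain ⟨r2, r1, r0⟩ := G2.rank_base
  exact ⟨Fin 7, inferInstance, inferInstance, G2.Q7, G2.Pf g, G2.isHW_Pf hg, hend, (G2.rank_Pf hg 2).trans r2,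
    (G2.rank_Pf hg 1).trans r1, (G2.rank_Pf hg 0).trans r0, G2.g0, G2.isGQ_g0, G2.not_mem hg⟩

end MH
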