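import Pool.Agent.Helper14.GH.HW
import Mathlib

/-!
PrimeGeometricGenus (MP_b8862a_ag), construction (4): the norm of a structure of K3 type over `ℚ(√2)`.
-/

set_option linter.unusedSectionVars false

open Matrix
open scoped Kronecker

namespace MH

namespace PGN

variable {ι : Type*} [Fintype ι] [DecidableEq ι]

/-- the matrix that exchanges the two indices -/
def T (ι : Type*) [DecidableEq ι] (R : Type*) [Zero R] [One R] : Matrix (ι × ι) (ι × ι) R :=
  fun p q => if p = q.swap then 1 else 0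

section
variable {R : Type*} [CommRing R]

theorem T_mul_apply {m : Type*} (X : Matrix (ι × ι) m R) (p : ι × ι) (j : m) : (T ι R * X) p j = X p.swap j := by
  rw [Matrix.mul_apply, Finset.sum_eq_single p.swap]
  · rw [T, if_pos (Prod.swap_swap p).symm, one_mul]
  · intro q _ hq
    rw [T, if_neg, zero_mul]
    rintro rfl
    exact hq (Prod.swap_swap q).symm
  · intro h
    exact absurd (Finset.mem_univ _) h

theorem mul_T_apply {m : Type*} (X : Matrix m (ι × ι) R) (j : m) (p : ι × ι) : (X * T ι R) j p = X j p.swap := by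
  rw [Matrix.mul_apply, Finset.sum_eq_single p.swap]
  · rw [T, if_pos rfl, mul_one]
  · intro q _ hq
    rw [T, if_neg hq, mul_zero]
  · intro h
    exact absurd (Finset.mem_univ _) h

theorem T_mul_T : T ι R * T ι R = 1 := by
  ext p q
  rw [T_mul_apply, T, Matrix.one_apply]
  congr 1
  exact propext ⟨fun h => by rw [← Prod.swap_swap p, h, Prod.swap_swap], fun h => by rw [h]⟩

theorem T_transpose : (T ι R)ᵀ = T ι R := by
  ext p q
  rw [Matrix.transpose_apply, T, T]
  congr 1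
  exact propext ⟨fun h => by rw [h, Prod.swap_swap], fun h => by rw [h, Prod.swap_swap]⟩

theorem T_map {R' : Type*} [CommRing R'] (f : R →+* R') : (T ι R).map f = T ι R' := by
  ext p q
  rw [Matrix.map_apply, T, T]
  split_ifs
  · exact map_one f
  · exact map_zero f

theorem T_diag (d : ι × ι → R) : T ι R * Matrix.diagonal d = Matrix.diagonal (fun p => d p.swap) * T ι R := by
  ext p q
  rw [T_mul_apply, mul_T_apply, Matrix.diagonal_apply, Matrix.diagonal_apply]
  by_cases h : p.swap = q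
  · rw [if_pos h, if_pos (by rw [← h, Prod.swap_swap])]
  · rw [if_neg h, if_neg (fun h' => h (by rw [h', Prod.swap_swap]))]

theorem T_kron (A B : Matrix ι ι R) : T ι R * (A ⊗ₖ B) = (B ⊗ₖ A) * T ι R := by
  ext p q
  rw [T_mul_apply, mul_T_apply, Matrix.kroneckerMap_apply, Matrix.kroneckerMap_apply]
  exact mul_comm _ _

end

section
variable (ι) (K : Type*) [Field K]

/-- the projection to the symmetric matrices -/
def pp : Matrix (ι × ι) (ι × ι) K := (1 / 2 : K) • (1 + T ι K)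

/-- the projection to the skew matrices -/
def pm : Matrix (ι × ι) (ι × ι) K := (1 / 2 : K) • (1 - T ι K)

variable {ι K} [CharZero K]

theorem pp_add_pm : pp ι K + pm ι K = 1 := by
  rw [pp, pm, ← smul_add, add_add_sub_cancel, ← two_smul K (1 : Matrix (ι × ι) (ι × ι) K), smul_smul]
  norm_num

theorem T_pp : T ι K * pp ι K = pp ι K := by
  rw [pp, mul_smul_comm, mul_add, T_mul_T, mul_one, add_comm]

theorem pp_T : pp ι K * T ι K = pp ι K := by
  rw [pp, smul_mul_assoc, add_mul, T_mul_T, one_mul, add_comm]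

theorem T_pm : T ι K * pm ι K = -pm ι K := by
  rw [pm, mul_smul_comm, mul_sub, T_mul_T, mul_one, ← smul_neg, neg_sub]

theorem pm_T : pm ι K * T ι K = -pm ι K := by
  rw [pm, smul_mul_assoc, sub_mul, T_mul_T, one_mul, ← smul_neg, neg_sub]

theorem pp_mul_pp : pp ι K * pp ι K = pp ι K := by
  nth_rw 1 [pp]
  rw [smul_mul_assoc, add_mul, T_pp, one_mul, ← two_smul K (pp ι K), smul_smul]
  norm_num

theorem pm_mul_pm : pm ι K * pm ι K = pm ι K := by
  nth_rw 1 [pm]
  rw [smul_mul_assoc, sub_mul, T_pm, one_mul, sub_neg_eq_add, ← two_smul K (pm ι K), smul_smul]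
  norm_num

theorem pp_mul_pm : pp ι K * pm ι K = 0 := by
  nth_rw 1 [pp]
  rw [smul_mul_assoc, add_mul, T_pm, one_mul, add_neg_cancel, smul_zero]

theorem pm_mul_pp : pm ι K * pp ι K = 0 := by
  nth_rw 1 [pm]
  rw [smul_mul_assoc, sub_mul, T_pp, one_mul, sub_self, smul_zero]

theorem pp_transpose : (pp ι K)ᵀ = pp ι K := by
  rw [pp, Matrix.transpose_smul, Matrix.transpose_add, T_transpose, Matrix.transpose_one]

theorem pm_transpose : (pm ι K)ᵀ = pm ι K := by
  rw [pm, Matrix.transpose_smul, Matrix.transpose_sub, T_transpose, Matrix.transpose_one]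

theorem pp_map {K' : Type*} [Field K'] [CharZero K'] (f : K →+* K') : (pp ι K).map f = pp ι K' := by
  rw [pp, pp, ← T_map f]
  ext p q
  simp only [Matrix.map_apply, Matrix.smul_apply, Matrix.add_apply, smul_eq_mul, map_mul, map_add, Matrix.one_apply,
    map_div₀, map_one, map_ofNat]
  split_ifs <;> simp

theorem pm_map {K' : Type*} [Field K'] [CharZero K'] (f : K →+* K') : (pm ι K).map f = pm ι K' := by
  rw [pm, pm, ← T_map f]
  ext p q
  simp only [Matrix.map_apply, Matrix.smul_apply, Matrix.sub_apply, smul_eq_mul, map_mul, map_sub, Matrix.one_apply,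
    map_div₀, map_one, map_ofNat]
  split_ifs <;> simp

/-- a diagonal matrix that commutes with the exchange is block diagonal -/
theorem pp_diag_pm {d : ι × ι → K} (hd : ∀ p, d p.swap = d p) : pp ι K * Matrix.diagonal d * pm ι K = 0 := by
  have h1 : T ι K * Matrix.diagonal d = Matrix.diagonal d * T ι K := by
    rw [T_diag]
    simp only [hd]
  have h2 : pp ι K * Matrix.diagonal d = Matrix.diagonal d * pp ι K := by
    rw [pp, smul_mul_assoc, mul_smul_comm, add_mul, mul_add, h1, one_mul, mul_one]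
  rw [h2, mul_assoc, pp_mul_pm, mul_zero]

theorem pm_diag_pp {d : ι × ι → K} (hd : ∀ p, d p.swap = d p) : pm ι K * Matrix.diagonal d * pp ι K = 0 := by
  have h1 : T ι K * Matrix.diagonal d = Matrix.diagonal d * T ι K := by
    rw [T_diag]
    simp only [hd]
  have h2 : pm ι K * Matrix.diagonal d = Matrix.diagonal d * pm ι K := by
    rw [pm, smul_mul_assoc, mul_smul_comm, sub_mul, mul_sub, h1, one_mul, mul_one]
  rw [h2, mul_assoc, pm_mul_pp, mul_zero]

/-- a diagonal matrix that anticommutes with the exchange exchanges the blocks -/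
theorem pp_diag_pp {d : ι × ι → K} (hd : ∀ p, d p.swap = -d p) : pp ι K * Matrix.diagonal d * pp ι K = 0 := by
  have h1 : T ι K * Matrix.diagonal d = -(Matrix.diagonal d * T ι K) := by
    rw [T_diag, ← neg_mul]
    congr 1
    ext p q
    simp only [Matrix.diagonal_apply, Matrix.neg_apply, hd]
    split_ifs <;> simp
  have h2 : pp ι K * Matrix.diagonal d = Matrix.diagonal d * pm ι K := by
    rw [pp, pm, smul_mul_assoc, mul_smul_comm, add_mul, mul_sub, h1, one_mul, mul_one, sub_eq_add_neg]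
  rw [h2, mul_assoc, pm_mul_pp, mul_zero]

theorem pm_diag_pm {d : ι × ι → K} (hd : ∀ p, d p.swap = -d p) : pm ι K * Matrix.diagonal d * pm ι K = 0 := by
  have h1 : T ι K * Matrix.diagonal d = -(Matrix.diagonal d * T ι K) := by
    rw [T_diag, ← neg_mul]
    congr 1
    ext p q
    simp only [Matrix.diagonal_apply, Matrix.neg_apply, hd]
    split_ifs <;> simp
  have h2 : pm ι K * Matrix.diagonal d = Matrix.diagonal d * pp ι K := by
    rw [pp, pm, smul_mul_assoc, mul_smul_comm, sub_mul, mul_add, h1, one_mul, mul_one, sub_neg_eq_add]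
  rw [h2, mul_assoc, pp_mul_pm, mul_zero]

end

/-- the square root of two as a complex number -/
noncomputable def r2 : ℂ := ((Real.sqrt 2 : ℝ) : ℂ)

theorem r2_sq : r2 * r2 = 2 := by
  rw [r2, ← Complex.ofReal_mul, Real.mul_self_sqrt (by norm_num)]
  norm_num

theorem r2_ne : r2 ≠ 0 := by
  intro h
  have := r2_sq
  rw [h] at this
  norm_num at this

/-- the change of coordinates `Y = L x` -/
noncomputable def L (ι : Type*) [Fintype ι] [DecidableEq ι] : Matrix (ι × ι) (ι × ι) ℂ := pp ι ℂ + r2 • pm ι ℂ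

/-- its inverse -/
noncomputable def Li (ι : Type*) [Fintype ι] [DecidableEq ι] : Matrix (ι × ι) (ι × ι) ℂ := pp ι ℂ + r2⁻¹ • pm ι ℂ

theorem L_mul_Li : L ι * Li ι = 1 := by
  rw [L, Li, add_mul, mul_add, mul_add, pp_mul_pp, mul_smul_comm, pp_mul_pm, smul_mul_assoc, pm_mul_pp, smul_mul_assoc,
    mul_smul_comm, pm_mul_pm, smul_smul, mul_inv_cancel₀ r2_ne, smul_zero, smul_zero, one_smul, add_zero, zero_add,
    pp_add_pm]

theorem Li_mul_L : Li ι * L ι = 1 := by
  rw [L, Li, add_mul, mul_add, mul_add, pp_mul_pp, mul_smul_comm, pp_mul_pm, smul_mul_assoc, pm_mul_pp, smul_mul_assoc,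
    mul_smul_comm, pm_mul_pm, smul_smul, inv_mul_cancel₀ r2_ne, smul_zero, smul_zero, one_smul, add_zero, zero_add,
    pp_add_pm]

theorem L_transpose : (L ι)ᵀ = L ι := by
  rw [L, Matrix.transpose_add, Matrix.transpose_smul, pp_transpose, pm_transpose]

theorem Li_transpose : (Li ι)ᵀ = Li ι := by
  rw [Li, Matrix.transpose_add, Matrix.transpose_smul, pp_transpose, pm_transpose]

/-- the characteristic function of the two indices -/
def chi (i0 i1 : ι) (i : ι) : ℚ := if i = i0 ∨ i = i1 then 1 else 0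

/-- the coefficients of the form at the first place -/
noncomputable def av (i0 i1 : ι) (i : ι) : ℂ := 1 - chi i0 i1 i - r2 * chi i0 i1 i

/-- the coefficients of the form at the second place -/
noncomputable def av' (i0 i1 : ι) (i : ι) : ℂ := 1 - chi i0 i1 i + r2 * chi i0 i1 i

/-- the form in the coordinates `Y` -/
noncomputable def Dl (i0 i1 : ι) : Matrix (ι × ι) (ι × ι) ℂ :=
  Matrix.diagonal (av i0 i1) ⊗ₖ Matrix.diagonal (av' i0 i1)

/-- the rational part of the coefficients -/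
def D0 (i0 i1 : ι) (p : ι × ι) : ℚ :=
  (1 - chi i0 i1 p.1) * (1 - chi i0 i1 p.2) - 2 * chi i0 i1 p.1 * chi i0 i1 p.2

/-- the irrational part of the coefficients -/
def D1 (i0 i1 : ι) (p : ι × ι) : ℚ := chi i0 i1 p.2 - chi i0 i1 p.1

/-- the matrix of the form -/
def Q4 (i0 i1 : ι) : Matrix (ι × ι) (ι × ι) ℚ :=
  pp ι ℚ * Matrix.diagonal (D0 i0 i1) * pp ι ℚ + (2 : ℚ) • (pm ι ℚ * Matrix.diagonal (D0 i0 i1) * pm ι ℚ) +
    (2 : ℚ) • (pp ι ℚ * Matrix.diagonal (D1 i0 i1) * pm ι ℚ + pm ι ℚ * Matrix.diagonal (D1 i0 i1) * pp ι ℚ)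

theorem D0_swap (i0 i1 : ι) (p : ι × ι) : D0 i0 i1 p.swap = D0 i0 i1 p := by
  simp only [D0, Prod.fst_swap, Prod.snd_swap]
  ring

theorem D1_swap (i0 i1 : ι) (p : ι × ι) : D1 i0 i1 p.swap = -D1 i0 i1 p := by
  simp only [D1, Prod.fst_swap, Prod.snd_swap]
  ring

theorem Dl_eq (i0 i1 : ι) : Dl i0 i1 = Matrix.diagonal (fun p => (D0 i0 i1 p : ℂ)) +
    r2 • Matrix.diagonal (fun p => (D1 i0 i1 p : ℂ)) := by
  ext p q
  rw [Dl, Matrix.diagonal_kronecker_diagonal, Matrix.add_apply, Matrix.smul_apply, Matrix.diagonal_apply,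
    Matrix.diagonal_apply, Matrix.diagonal_apply]
  split_ifs
  · simp only [av, av', D0, D1, smul_eq_mul]
    push_cast
    linear_combination (-(chi i0 i1 p.1 * chi i0 i1 p.2 : ℂ)) * r2_sq
  · simp

theorem toC_Q4 (i0 i1 : ι) : toC (Q4 i0 i1) = L ι * Dl i0 i1 * L ι := by
  have h0 : ∀ p : ι × ι, (D0 i0 i1 p.swap : ℂ) = (D0 i0 i1 p : ℂ) := fun p => by rw [D0_swap]
  have h1 : ∀ p : ι × ι, (D1 i0 i1 p.swap : ℂ) = -(D1 i0 i1 p : ℂ) := fun p => by rw [D1_swap]; push_cast; rfl
  obtain ⟨X, hX⟩ : ∃ X, X = Matrix.diagonal (fun p => (D0 i0 i1 p : ℂ)) := ⟨_, rfl⟩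
  obtain ⟨Z, hZ⟩ : ∃ Z, Z = Matrix.diagonal (fun p => (D1 i0 i1 p : ℂ)) := ⟨_, rfl⟩
  have e1 := pp_diag_pm (K := ℂ) (d := fun p => (D0 i0 i1 p : ℂ)) h0
  have e2 := pm_diag_pp (K := ℂ) (d := fun p => (D0 i0 i1 p : ℂ)) h0
  have e3 := pp_diag_pp (K := ℂ) (d := fun p => (D1 i0 i1 p : ℂ)) h1
  have e4 := pm_diag_pm (K := ℂ) (d := fun p => (D1 i0 i1 p : ℂ)) h1
  rw [← hX] at e1 e2
  rw [← hZ] at e3 e4
  have hL : L ι * Dl i0 i1 * L ι = pp ι ℂ * X * pp ι ℂ + (2 : ℂ) • (pm ι ℂ * X * pm ι ℂ) +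
      (2 : ℂ) • (pp ι ℂ * Z * pm ι ℂ + pm ι ℂ * Z * pp ι ℂ) := by
    rw [Dl_eq, ← hX, ← hZ, L]
    simp only [add_mul, mul_add, smul_mul_assoc, mul_smul_comm, smul_add, smul_smul, e1, e2, e3, e4, smul_zero,
      add_zero, zero_add, r2_sq]
    abel
  rw [hL, Q4]
  have hd0 : (Matrix.diagonal (D0 i0 i1)).map (algebraMap ℚ ℂ) = X := by
    rw [hX, Matrix.diagonal_map (map_zero _)]
    rfl
  have hd1 : (Matrix.diagonal (D1 i0 i1)).map (algebraMap ℚ ℂ) = Z := by
    rw [hZ, Matrix.diagonal_map (map_zero _)]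
    rfl
  have hs : ∀ (c : ℚ) (M : Matrix (ι × ι) (ι × ι) ℚ), toC (c • M) = (c : ℂ) • toC M := by
    intro c M
    ext i j
    simp [toC]
  simp only [toC] at hs ⊢
  rw [Matrix.map_add _ (map_add _), Matrix.map_add _ (map_add _), hs, hs, Matrix.map_add _ (map_add _), Matrix.map_mul,
    Matrix.map_mul, Matrix.map_mul, Matrix.map_mul, Matrix.map_mul, Matrix.map_mul, Matrix.map_mul, Matrix.map_mul,
    hd0, hd1, pp_map, pm_map]
  norm_num

end PGN

end MH
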