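import Pool.Agent.Helper2.PGN.End3
import Pool.Agent.Helper81.PGN.Not4

/-!
PrimeGeometricGenus (MP_b8862a_ag), construction (4): the Hodge numbers `s`, `s ^ 2 - 2 s`, `s`.
-/

set_option linter.unusedSectionVars false

open Matrix
open scoped Kronecker

namespace MH

/-- For every `s ≥ 3` there is a polarised rational Hodge structure with the Hodge numbers `s`, `s ^ 2 - 2 s`, `s`, with the
endomorphisms `ℚ`, the Mumford-Tate group of which is smaller than the group of similitudes. -/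
theorem sharp_norm (s : ℕ) (hs : 3 ≤ s) : ∃ (n : Type) (_ : Fintype n) (_ : DecidableEq n) (Q : Matrix n n ℚ)
    (P : ℤ → Matrix n n ℂ), IsHW 2 Q {0, 1, 2} P ∧
      (∀ A : Matrix n n ℚ, (∀ p, toC A * P p = P p * toC A) → ∃ c : ℚ, A = c • (1 : Matrix n n ℚ)) ∧
      (P 2).rank = s ∧ (P 1).rank = s ^ 2 - 2 * s ∧ (P 0).rank = s ∧
      ∃ g : GL n ℂ, IsGQ 2 Q g ∧ g ∉ MT {0, 1, 2} P := by
  obtain ⟨k, rfl⟩ : ∃ k, s = k + 3 := ⟨s - 3, by omega⟩
  have h01 : (0 : Fin (k + 3)) ≠ 1 := by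
    intro h
    have := congrArg Fin.val h
    simp at this
  have h20 : (2 : Fin (k + 3)) ≠ 0 := by
    intro h
    have := congrArg Fin.val h
    simp at this
    rw [Nat.mod_eq_of_lt (by omega)] at this
    omega
  have h21 : (2 : Fin (k + 3)) ≠ 1 := by
    intro h
    have := congrArg Fin.val h
    simp at this
    rw [Nat.mod_eq_of_lt (by omega)] at this
    omega
  have hne : Nonempty (PGN.GT (0 : Fin (k + 3)) 1) :=
    ⟨⟨1, by
      show (1 : Matrix (Fin (k + 3)) (Fin (k + 3)) ℝ)ᵀ * PGN.Dr 0 1 * 1 = PGN.Dr 0 1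
      rw [Matrix.transpose_one, one_mul, mul_one]⟩⟩
  obtain ⟨⟨g, hg⟩, hend⟩ := exists_generic27 (T := PGN.GT (0 : Fin (k + 3)) 1)
    (fun t => PGN.P4 (PGN.Pf 0 1 (t : Matrix (Fin (k + 3)) (Fin (k + 3)) ℝ)))
    (fun p => (PGN.Pf_cont p).comp continuous_subtype_val)
    (fun U hU hne A hA => PGN.hgen4 h01 ⟨2, h20, h21⟩ U hU hne A hA)
  have K := PGN.kh_Pf h01 hg
  have H := K.isHW
  refine ⟨Fin (k + 3) × Fin (k + 3), inferInstance, inferInstance, PGN.Q4 0 1, PGN.P4 (PGN.Pf 0 1 g), H, hend, ?_, ?_, ?_,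
    ?_⟩
  · rw [K.rank2, Fintype.card_fin]
  · rw [K.rank1, Fintype.card_fin]
  · rw [K.rank0, Fintype.card_fin]
  · exact PGN.notMT4 H.idm (fun p => rfl) h01

end MH
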