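import Pool.Agent.Helper2.PGN.Hw

/-!
PrimeGeometricGenus (MP_b8862a_ag), construction (4): the endomorphisms.
-/

set_option linter.unusedSectionVars false

open Matrix
open scoped Kronecker

namespace MH

namespace PGN

variable {ι : Type*} [Fintype ι] [DecidableEq ι] {i0 i1 : ι}

/-! ### boosts -/

/-- the diagonal coefficient of a boost -/
noncomputable def cc (u : ℝ) : ℝ := Real.sqrt (1 + Real.sqrt 2 * u ^ 2)

theorem cc_sq (u : ℝ) : cc u ^ 2 = 1 + Real.sqrt 2 * u ^ 2 :=
  Real.sq_sqrt (by positivity)

theorem cc_neg (u : ℝ) : cc (-u) = cc u := by rw [cc, cc, neg_sq]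

theorem cc_zero : cc 0 = 1 := by rw [cc]; norm_num

theorem cc_ne_one {u : ℝ} (hu : u ≠ 0) : cc u ≠ 1 := by
  intro h
  have h1 := cc_sq u
  rw [h] at h1
  have h2 : 0 < Real.sqrt 2 * u ^ 2 := mul_pos (Real.sqrt_pos.2 (by norm_num)) (by positivity)
  linarith

theorem cc_cont : Continuous cc := by
  unfold cc
  fun_prop

/-- a boost in the plane of `i0` and `m` -/
noncomputable def bst (i0 m : ι) (u : ℝ) : Matrix ι ι ℝ := fun i k =>
  if i = i0 then (if k = i0 then cc u else if k = m then u else 0)
  else if i = m then (if k = m then cc u else if k = i0 then Real.sqrt 2 * u else 0)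
  else if i = k then 1 else 0

theorem bst_mul_apply {m : ι} (hm : i0 ≠ m) (u : ℝ) (X : Matrix ι ι ℝ) (i j : ι) :
    (bst i0 m u * X) i j = if i = i0 then cc u * X i0 j + u * X m j
      else if i = m then Real.sqrt 2 * u * X i0 j + cc u * X m j else X i j := by
  rw [Matrix.mul_apply]
  by_cases h0 : i = i0
  · subst h0
    rw [if_pos rfl, Fintype.sum_eq_add i m hm]
    · simp only [bst, if_true, if_neg (Ne.symm hm)]
    · rintro k ⟨h1, h2⟩
      simp only [bst, if_true, if_neg h1, if_neg h2, zero_mul]
  · rw [if_neg h0]
    by_cases hi : i = m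
    · subst hi
      rw [if_pos rfl, Fintype.sum_eq_add i0 i hm]
      · simp only [bst, if_true, if_neg hm, if_neg h0]
      · rintro k ⟨h1, h2⟩
        simp only [bst, if_true, if_neg h1, if_neg h2, if_neg h0, zero_mul]
    · rw [if_neg hi, Finset.sum_eq_single i]
      · simp only [bst, if_neg h0, if_neg hi, if_true, one_mul]
      · intro k _ hk
        simp only [bst, if_neg h0, if_neg hi, if_neg (Ne.symm hk), zero_mul]
      · intro h
        exact absurd (Finset.mem_univ _) h

theorem bst_mul_neg {m : ι} (hm : i0 ≠ m) (u : ℝ) : bst i0 m u * bst i0 m (-u) = 1 := by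
  ext i j
  rw [bst_mul_apply hm]
  have h1 := cc_sq u
  by_cases h0 : i = i0
  · subst h0
    rw [if_pos rfl]
    by_cases hj : j = i
    · subst hj
      simp only [bst, if_true, if_neg hm, if_neg (Ne.symm hm), Matrix.one_apply_eq, cc_neg]
      linear_combination h1
    · rw [Matrix.one_apply_ne (Ne.symm hj)]
      by_cases hj' : j = m
      · subst hj'
        simp only [bst, if_true, if_neg hj, cc_neg]
        ring
      · simp only [bst, if_true, if_neg hj, if_neg hj', if_neg (Ne.symm hm)]
        ring
  · rw [if_neg h0]
    by_cases hi : i = m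
    · subst hi
      rw [if_pos rfl]
      by_cases hj : j = i0
      · subst hj
        rw [Matrix.one_apply_ne h0]
        simp only [bst, if_true, if_neg hm, if_neg h0, cc_neg]
        ring
      · by_cases hj' : j = i
        · subst hj'
          rw [Matrix.one_apply_eq]
          simp only [bst, if_true, if_neg hj, cc_neg]
          linear_combination h1
        · rw [Matrix.one_apply_ne (Ne.symm hj')]
          simp only [bst, if_true, if_neg hj, if_neg hj', if_neg h0]
          ring
    · rw [if_neg hi]
      simp only [bst, if_neg h0, if_neg hi, Matrix.one_apply]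

theorem bst_neg_mul {m : ι} (hm : i0 ≠ m) (u : ℝ) : bst i0 m (-u) * bst i0 m u = 1 := by
  have h1 := bst_mul_neg hm (-u)
  rwa [neg_neg] at h1

theorem bst_zero {m : ι} (hm : i0 ≠ m) : bst i0 m 0 = 1 := by
  ext i j
  rw [Matrix.one_apply]
  by_cases h0 : i = i0
  · subst h0
    by_cases hj : j = i
    · subst hj
      simp [bst, cc_zero]
    · simp [bst, hj, Ne.symm hj]
  · by_cases hi : i = m
    · subst hi
      by_cases hj : j = i
      · subst hj
        simp [bst, cc_zero, h0]
      · simp [bst, hj, Ne.symm hj, h0]
    · simp [bst, h0, hi]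

theorem bst_cont (i0 m : ι) : Continuous (bst i0 m) := by
  refine continuous_matrix fun i k => ?_
  unfold bst
  split_ifs
  · exact cc_cont
  · exact continuous_id
  · exact continuous_const
  · exact cc_cont
  · exact continuous_const.mul continuous_id
  · exact continuous_const
  · exact continuous_const
  · exact continuous_const

/-- the real form -/
noncomputable def Dr (i0 i1 : ι) : Matrix ι ι ℝ := Matrix.diagonal (ar i0 i1)

theorem rC_Dr (i0 i1 : ι) : rC (Dr i0 i1) = Matrix.diagonal (av i0 i1) := by
  rw [rC, Dr, Matrix.diagonal_map (map_zero _)]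
  congr 1
  funext i
  exact (av_eq i0 i1 i).symm

theorem bst_isom {m : ι} (h0 : m ≠ i0) (h1 : m ≠ i1) (u : ℝ) :
    (bst i0 m u)ᵀ * Dr i0 i1 * bst i0 m u = Dr i0 i1 := by
  have h2 : (bst i0 m u)ᵀ * Dr i0 i1 = Dr i0 i1 * bst i0 m (-u) := by
    ext i j
    rw [Dr, Matrix.mul_diagonal, Matrix.diagonal_mul, Matrix.transpose_apply]
    have a0 : ar i0 i1 i0 = -Real.sqrt 2 := if_pos (Or.inl rfl)
    have am : ar i0 i1 m = 1 := if_neg (by tauto)
    by_cases hi : i = i0
    · subst hi
      by_cases hj : j = i
      · subst hj
        simp only [bst, if_true, cc_neg]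
        ring
      · by_cases hj' : j = m
        · subst hj'
          simp only [bst, if_true, if_neg hj, if_neg (Ne.symm hj), a0, am]
          ring
        · simp only [bst, if_true, if_neg hj, if_neg hj', zero_mul, mul_zero]
    · by_cases hi' : i = m
      · subst hi'
        by_cases hj : j = i0
        · subst hj
          simp only [bst, if_true, if_neg hi, if_neg (Ne.symm hi), a0, am]
          ring
        · by_cases hj' : j = i
          · subst hj'
            simp only [bst, if_true, if_neg hj, cc_neg]
            ring
          · simp only [bst, if_true, if_neg hj, if_neg hj', if_neg hi, zero_mul, mul_zero]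
      · by_cases hj : j = i0
        · subst hj
          simp only [bst, if_true, if_neg hi', if_neg hi, zero_mul, mul_zero]
        · by_cases hj' : j = m
          · subst hj'
            simp only [bst, if_true, if_neg hj, if_neg hi, if_neg hi', zero_mul, mul_zero]
          · simp only [bst, if_neg hj, if_neg hj', if_neg hi, if_neg hi']
            by_cases hij : i = j
            · subst hij
              simp
            · rw [if_neg hij, if_neg (Ne.symm hij), zero_mul, mul_zero]
  rw [h2, mul_assoc, bst_neg_mul (Ne.symm h0), mul_one]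

end PGN

end MH
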