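import Pool.Agent.Helper2.PGN.End

/-!
PrimeGeometricGenus (MP_b8862a_ag), construction (4): the endomorphisms.
-/

set_option linter.unusedSectionVars false

open Matrix
open scoped Kronecker

namespace MH

namespace PGN

variable {ι : Type*} [Fintype ι] [DecidableEq ι] {i0 i1 : ι}

theorem Pb_two : Pb i0 i1 2 = (1 / 2 : ℂ) • vecMulVec (om i0 i1) (star (om i0 i1)) := tri_two _ _ _
theorem Pb_zero : Pb i0 i1 0 = (1 / 2 : ℂ) • vecMulVec (star (om i0 i1)) (om i0 i1) := tri_zero _ _ _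
theorem Pb_one : Pb i0 i1 1 = Matrix.diagonal fun i => 1 - (chi i0 i1 i : ℂ) := tri_one _ _ _

theorem vmv_mulVec' {m : Type*} [Fintype m] (a b v : m → ℂ) : vecMulVec a b *ᵥ v = (b ⬝ᵥ v) • a := by
  funext i
  rw [Matrix.mulVec, dotProduct, Pi.smul_apply, smul_eq_mul, dotProduct, Finset.sum_mul]
  refine Finset.sum_congr rfl fun k _ => ?_
  rw [Matrix.vecMulVec_apply]
  ring

/-- a matrix that commutes with the three projections and their conjugates by the boosts is a scalar -/
theorem scalar_of_boosts (h01 : i0 ≠ i1) {b : Matrix ι ι ℂ} (hex : ∃ m, m ≠ i0 ∧ m ≠ i1)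
    (hb : ∀ p, b * Pb i0 i1 p = Pb i0 i1 p * b)
    (hboost : ∀ m, m ≠ i0 → m ≠ i1 → ∃ u : ℝ, u ≠ 0 ∧
      b * (rC (bst i0 m u) * Pb i0 i1 2 * rC (bst i0 m (-u))) =
        (rC (bst i0 m u) * Pb i0 i1 2 * rC (bst i0 m (-u))) * b) : ∃ c : ℂ, b = c • 1 := by
  have K := kh_base h01
  have p2om : Pb i0 i1 2 *ᵥ om i0 i1 = om i0 i1 := by
    rw [Pb_two, Matrix.smul_mulVec, vmv_mulVec', star_om_dot_om h01, smul_smul]
    norm_num
  have p0om : Pb i0 i1 0 *ᵥ star (om i0 i1) = star (om i0 i1) := by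
    rw [Pb_zero, Matrix.smul_mulVec, vmv_mulVec', om_dot_star_om h01, smul_smul]
    norm_num
  obtain ⟨la, hla⟩ : ∃ la : ℂ, b *ᵥ om i0 i1 = la • om i0 i1 := by
    refine ⟨(1 / 2 : ℂ) * (star (om i0 i1) ⬝ᵥ (b *ᵥ om i0 i1)), ?_⟩
    conv_lhs => rw [← p2om, Matrix.mulVec_mulVec, hb, ← Matrix.mulVec_mulVec, Pb_two, Matrix.smul_mulVec, vmv_mulVec',
      smul_smul]
  obtain ⟨mu, hmu⟩ : ∃ mu : ℂ, b *ᵥ star (om i0 i1) = mu • star (om i0 i1) := by
    refine ⟨(1 / 2 : ℂ) * (om i0 i1 ⬝ᵥ (b *ᵥ star (om i0 i1))), ?_⟩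
    conv_lhs => rw [← p0om, Matrix.mulVec_mulVec, hb, ← Matrix.mulVec_mulVec, Pb_zero, Matrix.smul_mulVec, vmv_mulVec',
      smul_smul]
  -- the boosted vector
  have hk : ∀ m, m ≠ i0 → m ≠ i1 → mu = la ∧ b *ᵥ Pi.single m 1 = la • Pi.single m (1 : ℂ) := by
    intro m h0 h1
    obtain ⟨u, hu, hbu⟩ := hboost m h0 h1
    obtain ⟨x, hx⟩ : ∃ x, x = rC (bst i0 m u) *ᵥ om i0 i1 := ⟨_, rfl⟩
    have hxe : x = (((cc u : ℂ) + 1) / 2) • om i0 i1 + (((cc u : ℂ) - 1) / 2) • star (om i0 i1) +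
        (r2 * u : ℂ) • Pi.single m (1 : ℂ) := by
      rw [hx]
      funext i
      have h2 : (rC (bst i0 m u) *ᵥ om i0 i1) i =
          ((bst i0 m u i i0 : ℝ) : ℂ) + Complex.I * ((bst i0 m u i i1 : ℝ) : ℂ) := by
        rw [Matrix.mulVec, dotProduct]
        have h3 : ∀ k, rC (bst i0 m u) i k * om i0 i1 k = om i0 i1 k * ((bst i0 m u i k : ℝ) : ℂ) := by
          intro k
          rw [mul_comm]
          rfl
        rw [Finset.sum_congr rfl fun k _ => h3 k, om_sum h01]
      rw [h2]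
      simp only [Pi.add_apply, Pi.smul_apply, smul_eq_mul, Pi.star_apply, Pi.single_apply]
      by_cases i0' : i = i0
      · subst i0'
        rw [om_i0, if_neg (Ne.symm h0)]
        simp only [bst, if_true, if_neg (Ne.symm h01), if_neg (Ne.symm h1), star_one]
        push_cast
        ring
      · by_cases i1' : i = i1
        · subst i1'
          rw [om_i1 h01, if_neg (Ne.symm h1)]
          simp only [bst, if_neg i0', if_neg (Ne.symm h1), if_true, Complex.star_def, Complex.conj_I]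
          push_cast
          ring
        · rw [om, if_neg i0', if_neg i1', star_zero]
          by_cases im : i = m
          · subst im
            rw [if_pos rfl]
            simp only [bst, if_neg i0', if_true, if_neg (Ne.symm i0'), if_neg (Ne.symm i1'), if_neg (Ne.symm h01), r2]
            push_cast
            ring
          · rw [if_neg im]
            simp only [bst, if_neg i0', if_neg im, if_neg i1']
            simp
    obtain ⟨nu, hnu⟩ : ∃ nu : ℂ, b *ᵥ x = nu • x := by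
      have h2 : (rC (bst i0 m u) * Pb i0 i1 2 * rC (bst i0 m (-u))) *ᵥ x = x := by
        rw [hx, Matrix.mulVec_mulVec, mul_assoc, ← rC_mul, bst_neg_mul (Ne.symm h0), rC_one, mul_one,
          ← Matrix.mulVec_mulVec, p2om]
      have h3 : b *ᵥ x = (rC (bst i0 m u) * Pb i0 i1 2 * rC (bst i0 m (-u))) *ᵥ (b *ᵥ x) := by
        conv_lhs => rw [← h2, Matrix.mulVec_mulVec, hbu, ← Matrix.mulVec_mulVec]
      obtain ⟨y, hy⟩ : ∃ y, y = rC (bst i0 m (-u)) *ᵥ (b *ᵥ x) := ⟨_, rfl⟩
      refine ⟨(1 / 2 : ℂ) * (star (om i0 i1) ⬝ᵥ y), ?_⟩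
      rw [h3, ← Matrix.mulVec_mulVec, ← hy, ← Matrix.mulVec_mulVec, Pb_two, Matrix.smul_mulVec, vmv_mulVec', smul_smul,
        Matrix.mulVec_smul, hx]
    have e0 : Pb i0 i1 2 *ᵥ star (om i0 i1) = 0 := by
      rw [Pb_two, Matrix.smul_mulVec, vmv_mulVec', star_om_dot_star_om h01, zero_smul, smul_zero]
    have e1 : Pb i0 i1 0 *ᵥ om i0 i1 = 0 := by
      rw [Pb_zero, Matrix.smul_mulVec, vmv_mulVec', om_dot_om h01, zero_smul, smul_zero]
    have e2 : Pb i0 i1 1 *ᵥ om i0 i1 = 0 := by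
      rw [← p2om, Matrix.mulVec_mulVec, K.mul, if_neg (by norm_num), Matrix.zero_mulVec]
    have e3 : Pb i0 i1 1 *ᵥ star (om i0 i1) = 0 := by
      rw [← p0om, Matrix.mulVec_mulVec, K.mul, if_neg (by norm_num), Matrix.zero_mulVec]
    have e4 : Pb i0 i1 1 *ᵥ Pi.single m (1 : ℂ) = Pi.single m 1 := by
      rw [Pb_one]
      funext i
      rw [Matrix.mulVec_diagonal, Pi.single_apply]
      by_cases im : i = m
      · subst im
        rw [if_pos rfl, chi, if_neg (by tauto)]
        simp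
      · rw [if_neg im, mul_zero]
    have e5 : Pb i0 i1 2 *ᵥ Pi.single m (1 : ℂ) = 0 := by
      rw [← e4, Matrix.mulVec_mulVec, K.mul, if_neg (by norm_num), Matrix.zero_mulVec]
    have e6 : Pb i0 i1 0 *ᵥ Pi.single m (1 : ℂ) = 0 := by
      rw [← e4, Matrix.mulVec_mulVec, K.mul, if_neg (by norm_num), Matrix.zero_mulVec]
    have om0 : om i0 i1 ≠ 0 := fun h => by
      have := congrFun h i0
      rw [om_i0, Pi.zero_apply] at this
      exact one_ne_zero this
    have som0 : star (om i0 i1) ≠ 0 := fun h => by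
      have := congrFun h i0
      rw [Pi.star_apply, om_i0, star_one, Pi.zero_apply] at this
      exact one_ne_zero this
    have hcp : ((cc u : ℂ) + 1) / 2 ≠ 0 := by
      have h2 : 0 ≤ cc u := Real.sqrt_nonneg _
      have h3 : (cc u + 1) / 2 ≠ 0 := by positivity
      exact_mod_cast h3
    have hcm : ((cc u : ℂ) - 1) / 2 ≠ 0 := by
      have h3 : (cc u - 1) / 2 ≠ 0 := by
        intro h
        exact cc_ne_one hu (by linarith)
      exact_mod_cast h3
    have hru : (r2 * u : ℂ) ≠ 0 := mul_ne_zero r2_ne (by exact_mod_cast hu)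
    -- components
    have f2 : Pb i0 i1 2 *ᵥ x = (((cc u : ℂ) + 1) / 2) • om i0 i1 := by
      rw [hxe, Matrix.mulVec_add, Matrix.mulVec_add, Matrix.mulVec_smul, Matrix.mulVec_smul, Matrix.mulVec_smul, p2om, e0,
        e5, smul_zero, smul_zero, add_zero, add_zero]
    have f0 : Pb i0 i1 0 *ᵥ x = (((cc u : ℂ) - 1) / 2) • star (om i0 i1) := by
      rw [hxe, Matrix.mulVec_add, Matrix.mulVec_add, Matrix.mulVec_smul, Matrix.mulVec_smul, Matrix.mulVec_smul, p0om, e1,
        e6, smul_zero, smul_zero, add_zero, zero_add]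
    have f1 : Pb i0 i1 1 *ᵥ x = (r2 * u : ℂ) • Pi.single m (1 : ℂ) := by
      rw [hxe, Matrix.mulVec_add, Matrix.mulVec_add, Matrix.mulVec_smul, Matrix.mulVec_smul, Matrix.mulVec_smul, e4, e2,
        e3, smul_zero, smul_zero, add_zero, zero_add]
    have g2 := congrArg (fun y => Pb i0 i1 2 *ᵥ y) hnu
    have g0 := congrArg (fun y => Pb i0 i1 0 *ᵥ y) hnu
    have g1 := congrArg (fun y => Pb i0 i1 1 *ᵥ y) hnu
    rw [Matrix.mulVec_mulVec, ← hb, ← Matrix.mulVec_mulVec, Matrix.mulVec_smul, f2, Matrix.mulVec_smul, hla,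
      smul_smul, smul_smul] at g2
    rw [Matrix.mulVec_mulVec, ← hb, ← Matrix.mulVec_mulVec, Matrix.mulVec_smul, f0, Matrix.mulVec_smul, hmu,
      smul_smul, smul_smul] at g0
    rw [Matrix.mulVec_mulVec, ← hb, ← Matrix.mulVec_mulVec, Matrix.mulVec_smul, f1, Matrix.mulVec_smul] at g1
    have k2 : nu = la := by
      have h2 := smul_left_injective ℂ om0 g2
      rw [mul_comm] at h2
      exact (mul_right_cancel₀ hcp h2).symm
    have k0 : nu = mu := by
      have h2 := smul_left_injective ℂ som0 g0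
      rw [mul_comm] at h2
      exact (mul_right_cancel₀ hcm h2).symm
    refine ⟨by rw [← k0, k2], ?_⟩
    rw [smul_comm, k2] at g1
    exact smul_right_injective _ hru g1
  obtain ⟨m0, hm0, hm1⟩ := hex
  have hml : mu = la := (hk m0 hm0 hm1).1
  refine ⟨la, ?_⟩
  -- `b` and the scalar agree on the basis
  have hI : b *ᵥ Pi.single i0 1 = la • Pi.single i0 (1 : ℂ) := by
    have h2 : Pi.single i0 (1 : ℂ) = (1 / 2 : ℂ) • (om i0 i1 + star (om i0 i1)) := by
      funext i
      simp only [Pi.smul_apply, Pi.add_apply, Pi.star_apply, smul_eq_mul, Pi.single_apply, om]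
      by_cases i0' : i = i0
      · rw [if_pos i0', if_pos i0', star_one]; norm_num
      · rw [if_neg i0', if_neg i0']
        by_cases i1' : i = i1
        · rw [if_pos i1', Complex.star_def, Complex.conj_I]; ring
        · rw [if_neg i1', star_zero]; ring
    rw [h2, Matrix.mulVec_smul, Matrix.mulVec_add, hla, hmu, hml, ← smul_add, smul_comm]
  have hJ : b *ᵥ Pi.single i1 1 = la • Pi.single i1 (1 : ℂ) := by
    have h2 : Pi.single i1 (1 : ℂ) = (-Complex.I / 2 : ℂ) • (om i0 i1 - star (om i0 i1)) := by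
      funext i
      simp only [Pi.smul_apply, Pi.sub_apply, Pi.star_apply, smul_eq_mul, Pi.single_apply, om]
      by_cases i0' : i = i0
      · rw [if_neg (by rw [i0']; exact h01), if_pos i0', star_one]; ring
      · rw [if_neg i0']
        by_cases i1' : i = i1
        · rw [if_pos i1', if_pos i1', Complex.star_def, Complex.conj_I]
          linear_combination Complex.I_mul_I
        · rw [if_neg i1', if_neg i1', star_zero]; ring
    rw [h2, Matrix.mulVec_smul, Matrix.mulVec_sub, hla, hmu, hml, ← smul_sub, smul_comm]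
  ext i j
  have h3 : b *ᵥ Pi.single j 1 = la • Pi.single j (1 : ℂ) := by
    by_cases j0 : j = i0
    · rw [j0]; exact hI
    · by_cases j1 : j = i1
      · rw [j1]; exact hJ
      · exact (hk j j0 j1).2
  have h4 := congrFun h3 i
  rw [Matrix.mulVec_single_one, Pi.smul_apply, Matrix.col_apply, Pi.single_apply, smul_eq_mul] at h4
  rw [h4, Matrix.smul_apply, Matrix.one_apply, smul_eq_mul]

end PGN

end MH
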