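import Pool.Agent.Helper2.PGN.Hw

/-!
PrimeGeometricGenus (MP_b8862a_ag), construction (4): a rational matrix that acts on one factor only is a scalar.
-/

set_option linter.unusedSectionVars false

open Matrix
open scoped Kronecker

namespace MH

namespace PGN

variable {ι : Type*} [Fintype ι] [DecidableEq ι]

/-- the rational part -/
def e0 (A : Matrix (ι × ι) (ι × ι) ℚ) : Matrix (ι × ι) (ι × ι) ℚ := pp ι ℚ * A * pp ι ℚ + pm ι ℚ * A * pm ι ℚ

/-- the irrational part -/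
def e1 (A : Matrix (ι × ι) (ι × ι) ℚ) : Matrix (ι × ι) (ι × ι) ℚ :=
  pm ι ℚ * A * pp ι ℚ + (1 / 2 : ℚ) • (pp ι ℚ * A * pm ι ℚ)

theorem toC_smul' {m : Type*} (c : ℚ) (M : Matrix m m ℚ) : toC (c • M) = (c : ℂ) • toC M := by
  ext i j
  simp [toC]

theorem LALi (A : Matrix (ι × ι) (ι × ι) ℚ) : L ι * toC A * Li ι = toC (e0 A) + r2 • toC (e1 A) := by
  have hinv : r2⁻¹ = r2 / 2 := by
    rw [inv_eq_iff_eq_inv, inv_div, eq_div_iff r2_ne, r2_sq]
  have h0 : toC (e0 A) = pp ι ℂ * toC A * pp ι ℂ + pm ι ℂ * toC A * pm ι ℂ := by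
    rw [e0, toC, Matrix.map_add _ (map_add _), Matrix.map_mul, Matrix.map_mul, Matrix.map_mul, Matrix.map_mul, pp_map,
      pm_map]
    rfl
  have h1 : toC (e1 A) = pm ι ℂ * toC A * pp ι ℂ + (1 / 2 : ℂ) • (pp ι ℂ * toC A * pm ι ℂ) := by
    rw [e1, toC, Matrix.map_add _ (map_add _)]
    have h2 := toC_smul' (1 / 2 : ℚ) (pp ι ℚ * A * pm ι ℚ)
    rw [toC, toC] at h2
    rw [h2, Matrix.map_mul, Matrix.map_mul, Matrix.map_mul, Matrix.map_mul, pp_map, pm_map]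
    push_cast
    rfl
  rw [h0, h1, L, Li, hinv]
  simp only [add_mul, mul_add, smul_mul_assoc, mul_smul_comm, smul_add, smul_smul]
  have h3 : r2 * (r2 / 2) = 1 := by rw [mul_div_assoc', r2_sq]; norm_num
  have h4 : r2 / 2 * r2 = 1 := by rw [mul_comm, h3]
  have h5 : r2 * (1 / 2) = r2 / 2 := by ring
  simp only [h4, h5, one_smul]
  abel

/-- the square root of two is irrational -/
theorem r2_irr {a b : ℚ} (h : (a : ℂ) + r2 * b = 0) : a = 0 ∧ b = 0 := by
  have h1 : ((a : ℝ) + Real.sqrt 2 * b : ℝ) = 0 := by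
    rw [r2] at h
    exact_mod_cast h
  by_cases hb : b = 0
  · subst hb
    simp only [Rat.cast_zero, mul_zero, add_zero] at h1
    exact ⟨by exact_mod_cast h1, rfl⟩
  · exfalso
    have h2 : Real.sqrt 2 = ((-a / b : ℚ) : ℝ) := by
      have hb' : (b : ℝ) ≠ 0 := by exact_mod_cast hb
      push_cast
      field_simp
      linarith
    exact irrational_sqrt_two ⟨_, h2.symm⟩

theorem r2_irr' {a b c d : ℚ} (h : (a : ℂ) + r2 * b = c + r2 * d) : a = c ∧ b = d := by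
  have h1 : ((a - c : ℚ) : ℂ) + r2 * ((b - d : ℚ) : ℂ) = 0 := by
    push_cast
    linear_combination h
  obtain ⟨h2, h3⟩ := r2_irr h1
  exact ⟨by linarith, by linarith⟩

theorem T_e0 (A : Matrix (ι × ι) (ι × ι) ℚ) (p q : ι × ι) : e0 A p.swap q.swap = e0 A p q := by
  have h1 : T ι ℚ * e0 A * T ι ℚ = e0 A := by
    have a1 : T ι ℚ * (pp ι ℚ * A * pp ι ℚ) * T ι ℚ = pp ι ℚ * A * pp ι ℚ := by
      calc _ = (T ι ℚ * pp ι ℚ) * A * (pp ι ℚ * T ι ℚ) := by simp only [mul_assoc]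
        _ = _ := by rw [T_pp, pp_T]
    have a2 : T ι ℚ * (pm ι ℚ * A * pm ι ℚ) * T ι ℚ = pm ι ℚ * A * pm ι ℚ := by
      calc _ = (T ι ℚ * pm ι ℚ) * A * (pm ι ℚ * T ι ℚ) := by simp only [mul_assoc]
        _ = _ := by rw [T_pm, pm_T, neg_mul, neg_mul_neg]
    rw [e0, mul_add, add_mul, a1, a2]
  have h2 := congrFun (congrFun h1 p) q
  rw [mul_T_apply, T_mul_apply] at h2
  exact h2

theorem T_e1 (A : Matrix (ι × ι) (ι × ι) ℚ) (p q : ι × ι) : e1 A p.swap q.swap = -e1 A p q := by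
  have h1 : T ι ℚ * e1 A * T ι ℚ = -e1 A := by
    have a1 : T ι ℚ * (pm ι ℚ * A * pp ι ℚ) * T ι ℚ = -(pm ι ℚ * A * pp ι ℚ) := by
      calc _ = (T ι ℚ * pm ι ℚ) * A * (pp ι ℚ * T ι ℚ) := by simp only [mul_assoc]
        _ = _ := by rw [T_pm, pp_T, neg_mul, neg_mul]
    have a2 : T ι ℚ * (pp ι ℚ * A * pm ι ℚ) * T ι ℚ = -(pp ι ℚ * A * pm ι ℚ) := by
      calc _ = (T ι ℚ * pp ι ℚ) * A * (pm ι ℚ * T ι ℚ) := by simp only [mul_assoc]
        _ = _ := by rw [T_pp, pm_T, mul_neg]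
    rw [e1, mul_add, add_mul, a1, mul_smul_comm, smul_mul_assoc, a2, neg_add, smul_neg]
  have h2 := congrFun (congrFun h1 p) q
  rw [mul_T_apply, T_mul_apply, Matrix.neg_apply] at h2
  exact h2

/-- a rational matrix that acts on one factor only is a scalar -/
theorem scalar_of_factor (i0 : ι) {A : Matrix (ι × ι) (ι × ι) ℚ} (la : ι → ι → ℂ)
    (h : ∀ i j k l, (L ι * toC A * Li ι) (i, j) (k, l) = if i = k then la j l else 0) :
    ∃ c : ℚ, A = c • (1 : Matrix (ι × ι) (ι × ι) ℚ) := by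
  have hent : ∀ i j k l, ((e0 A (i, j) (k, l) : ℚ) : ℂ) + r2 * ((e1 A (i, j) (k, l) : ℚ) : ℂ) =
      if i = k then la j l else 0 := by
    intro i j k l
    rw [← h i j k l, LALi]
    rfl
  have hoff : ∀ i j k l, i ≠ k → e0 A (i, j) (k, l) = 0 ∧ e1 A (i, j) (k, l) = 0 := by
    intro i j k l hik
    have h1 := hent i j k l
    rw [if_neg hik] at h1
    exact r2_irr h1
  have hoff' : ∀ i j k l, j ≠ l → e0 A (i, j) (k, l) = 0 ∧ e1 A (i, j) (k, l) = 0 := by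
    intro i j k l hjl
    have h1 := hoff j i l k hjl
    have h2 := T_e0 A (i, j) (k, l)
    have h3 := T_e1 A (i, j) (k, l)
    simp only [Prod.swap_prod_mk] at h2 h3
    rw [h1.1] at h2
    rw [h1.2] at h3
    exact ⟨h2.symm, by linarith⟩
  have hdiag : ∀ i k j, e0 A (i, j) (i, j) = e0 A (k, j) (k, j) ∧ e1 A (i, j) (i, j) = e1 A (k, j) (k, j) := by
    intro i k j
    have h1 := hent i j i j
    have h2 := hent k j k j
    rw [if_pos rfl] at h1 h2
    exact r2_irr' (h1.trans h2.symm)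
  have hsw0 : ∀ i j, e0 A (i, j) (i, j) = e0 A (j, i) (j, i) := fun i j => (T_e0 A (i, j) (i, j)).symm
  have hsw1 : ∀ i j, e1 A (j, i) (j, i) = -e1 A (i, j) (i, j) := fun i j => T_e1 A (i, j) (i, j)
  have hc0 : ∀ i j, e0 A (i, j) (i, j) = e0 A (i0, i0) (i0, i0) := by
    intro i j
    rw [(hdiag i i0 j).1, hsw0, (hdiag j i0 i0).1]
  have hc1 : ∀ i j, e1 A (i, j) (i, j) = 0 := by
    intro i j
    have h1 := hsw1 j j
    rw [(hdiag i j j).2]
    linarith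
  have h0 : e0 A = (e0 A (i0, i0) (i0, i0)) • (1 : Matrix (ι × ι) (ι × ι) ℚ) := by
    ext ⟨i, j⟩ ⟨k, l⟩
    rw [Matrix.smul_apply, Matrix.one_apply, smul_eq_mul]
    by_cases hik : i = k
    · by_cases hjl : j = l
      · subst hik; subst hjl
        rw [if_pos rfl, mul_one, hc0]
      · rw [(hoff' i j k l hjl).1, if_neg (fun hh => hjl (Prod.mk.inj hh).2), mul_zero]
    · rw [(hoff i j k l hik).1, if_neg (fun hh => hik (Prod.mk.inj hh).1), mul_zero]
  have h1 : e1 A = 0 := by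
    ext ⟨i, j⟩ ⟨k, l⟩
    rw [Matrix.zero_apply]
    by_cases hik : i = k
    · by_cases hjl : j = l
      · subst hik; subst hjl
        exact hc1 i j
      · exact (hoff' i j k l hjl).2
    · exact (hoff i j k l hik).2
  obtain ⟨c, hc⟩ : ∃ c, c = e0 A (i0, i0) (i0, i0) := ⟨_, rfl⟩
  refine ⟨c, ?_⟩
  have h2 := LALi A
  rw [h1, h0, ← hc, toC_smul'] at h2
  have h3 : toC (1 : Matrix (ι × ι) (ι × ι) ℚ) = 1 := Matrix.map_one _ (map_zero _) (map_one _)
  have h4 : toC (0 : Matrix (ι × ι) (ι × ι) ℚ) = 0 := Matrix.map_zero _ (map_zero _)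
  rw [h3, h4, smul_zero, add_zero] at h2
  have h5 : toC A = toC (c • (1 : Matrix (ι × ι) (ι × ι) ℚ)) := by
    rw [toC_smul', h3]
    calc toC A = (Li ι * L ι) * toC A * (Li ι * L ι) := by rw [Li_mul_L, one_mul, mul_one]
      _ = Li ι * (L ι * toC A * Li ι) * L ι := by simp only [mul_assoc]
      _ = _ := by rw [h2, mul_smul_comm, smul_mul_assoc, mul_one, Li_mul_L]
  ext p q
  have h6 := congrFun (congrFun h5 p) q
  simp only [toC, Matrix.map_apply] at h6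
  exact (algebraMap ℚ ℂ).injective h6

end PGN

end MH
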