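import Pool.Agent.Helper2.PGN.End2
import Pool.Agent.Helper2.PGN.Rat
import Pool.Agent.Helper27.PGN.Gen

/-!
PrimeGeometricGenus (MP_b8862a_ag), construction (4): a generic member of the family has the endomorphism algebra `ℚ`.
-/

set_option linter.unusedSectionVars false

open Matrix
open scoped Kronecker

namespace MH

namespace PGN

variable {ι : Type*} [Fintype ι] [DecidableEq ι] {i0 i1 : ι}

/-- the real isometries of the form -/
def GT (i0 i1 : ι) : Set (Matrix ι ι ℝ) := {g | gᵀ * Dr i0 i1 * g = Dr i0 i1}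

theorem isClosed_GT : IsClosed (GT i0 i1) :=
  isClosed_eq ((continuous_id.matrix_transpose.matrix_mul continuous_const).matrix_mul continuous_id) continuous_const

instance baire_GT : BaireSpace (GT i0 i1) := by
  have : LocallyCompactSpace (Matrix ι ι ℝ) := inferInstanceAs (LocallyCompactSpace (ι → ι → ℝ))
  have : LocallyCompactSpace (GT i0 i1) := isClosed_GT.locallyCompactSpace
  infer_instance

theorem ar_ne (i : ι) : ar i0 i1 i ≠ 0 := by
  rw [ar]
  split_ifs
  · exact neg_ne_zero.2 (Real.sqrt_pos.2 (by norm_num)).ne'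
  · exact one_ne_zero

/-- the inverse of an isometry -/
noncomputable def gi (i0 i1 : ι) (g : Matrix ι ι ℝ) : Matrix ι ι ℝ :=
  Matrix.diagonal (fun i => (ar i0 i1 i)⁻¹) * gᵀ * Dr i0 i1

theorem gi_mul {g : Matrix ι ι ℝ} (hg : g ∈ GT i0 i1) : gi i0 i1 g * g = 1 := by
  have h1 : gᵀ * Dr i0 i1 * g = Dr i0 i1 := hg
  rw [gi, mul_assoc, mul_assoc, ← mul_assoc (gᵀ), h1, Dr, Matrix.diagonal_mul_diagonal, ← Matrix.diagonal_one]
  congr 1
  funext i
  exact inv_mul_cancel₀ (ar_ne i)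

theorem mul_gi {g : Matrix ι ι ℝ} (hg : g ∈ GT i0 i1) : g * gi i0 i1 g = 1 := mul_eq_one_comm.1 (gi_mul hg)

theorem gi_cont : Continuous (gi i0 i1) := by
  unfold gi
  exact (continuous_const.matrix_mul continuous_id.matrix_transpose).matrix_mul continuous_const

theorem isom_C {g : Matrix ι ι ℝ} (hg : g ∈ GT i0 i1) :
    (rC g)ᵀ * Matrix.diagonal (av i0 i1) * rC g = Matrix.diagonal (av i0 i1) := by
  have h1 : gᵀ * Dr i0 i1 * g = Dr i0 i1 := hg
  have h2 := congrArg rC h1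
  rw [rC_mul, rC_mul, rC_Dr] at h2
  exact h2

/-- the family of structures of K3 type -/
noncomputable def Pf (i0 i1 : ι) (g : Matrix ι ι ℝ) (p : ℤ) : Matrix ι ι ℂ := rC g * Pb i0 i1 p * rC (gi i0 i1 g)

theorem kh_Pf (h01 : i0 ≠ i1) {g : Matrix ι ι ℝ} (hg : g ∈ GT i0 i1) : KH (av i0 i1) (Pf i0 i1 g) :=
  (kh_base h01).conj' (mul_gi hg) (gi_mul hg) (isom_C hg)

theorem rC_cont : Continuous (rC : Matrix ι ι ℝ → Matrix ι ι ℂ) := by
  refine continuous_matrix fun i j => ?_
  exact Complex.continuous_ofReal.comp (continuous_id.matrix_elem i j)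

theorem Pf_cont (p : ℤ) : Continuous fun g => P4 (Pf i0 i1 g) p := by
  have h1 : Continuous fun g => Pf i0 i1 g p :=
    (rC_cont.matrix_mul continuous_const).matrix_mul (rC_cont.comp gi_cont)
  have h2 : Continuous fun g => (Pf i0 i1 g p ⊗ₖ (1 : Matrix ι ι ℂ)) := by
    refine continuous_matrix fun x y => ?_
    simp only [Matrix.kroneckerMap_apply]
    exact (h1.matrix_elem x.1 y.1).mul continuous_const
  exact (continuous_const.matrix_mul h2).matrix_mul continuous_const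

/-- the blocks of a matrix that commutes with `B ⊗ 1` -/
theorem block_comm {E : Matrix (ι × ι) (ι × ι) ℂ} {B : Matrix ι ι ℂ}
    (h : E * (B ⊗ₖ (1 : Matrix ι ι ℂ)) = (B ⊗ₖ (1 : Matrix ι ι ℂ)) * E) (j l : ι) :
    (Matrix.of fun i k => E (i, j) (k, l)) * B = B * (Matrix.of fun i k => E (i, j) (k, l)) := by
  ext i k
  have h1 := congrFun (congrFun h (i, j)) (k, l)
  rw [Matrix.mul_apply, Matrix.mul_apply, Fintype.sum_prod_type, Fintype.sum_prod_type] at h1
  rw [Matrix.mul_apply, Matrix.mul_apply]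
  calc ∑ x, (Matrix.of fun i k => E (i, j) (k, l)) i x * B x k
      = ∑ x, ∑ y, E (i, j) (x, y) * (B ⊗ₖ (1 : Matrix ι ι ℂ)) (x, y) (k, l) := by
        refine Finset.sum_congr rfl fun x _ => ?_
        rw [Finset.sum_eq_single l]
        · rw [Matrix.kroneckerMap_apply, Matrix.one_apply_eq, mul_one]; rfl
        · intro y _ hy
          rw [Matrix.kroneckerMap_apply, Matrix.one_apply_ne hy, mul_zero, mul_zero]
        · intro hh
          exact absurd (Finset.mem_univ _) hh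
    _ = ∑ x, ∑ y, (B ⊗ₖ (1 : Matrix ι ι ℂ)) (i, j) (x, y) * E (x, y) (k, l) := h1
    _ = ∑ x, B i x * (Matrix.of fun i k => E (i, j) (k, l)) x k := by
        refine Finset.sum_congr rfl fun x _ => ?_
        rw [Finset.sum_eq_single j]
        · rw [Matrix.kroneckerMap_apply, Matrix.one_apply_eq, mul_one]; rfl
        · intro y _ hy
          rw [Matrix.kroneckerMap_apply, Matrix.one_apply_ne (Ne.symm hy), mul_zero, zero_mul]
        · intro hh
          exact absurd (Finset.mem_univ _) hh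

/-- a rational matrix that commutes with all the projections of an open part of the family is a scalar -/
theorem hgen4 (h01 : i0 ≠ i1) (hex : ∃ m, m ≠ i0 ∧ m ≠ i1) (U : Set (GT i0 i1)) (hU : IsOpen U) (hne : U.Nonempty)
    (A : Matrix (ι × ι) (ι × ι) ℚ)
    (hA : ∀ t ∈ U, ∀ p, toC A * P4 (Pf i0 i1 (t : Matrix ι ι ℝ)) p = P4 (Pf i0 i1 (t : Matrix ι ι ℝ)) p * toC A) :
    ∃ c : ℚ, A = c • (1 : Matrix (ι × ι) (ι × ι) ℚ) := by
  obtain ⟨⟨g, hg⟩, hgU⟩ := hne
  obtain ⟨E, hE⟩ : ∃ E, E = L ι * toC A * Li ι := ⟨_, rfl⟩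
  -- the family commutes with `E`
  have hEt : ∀ t ∈ U, ∀ p, E * (Pf i0 i1 (t : Matrix ι ι ℝ) p ⊗ₖ (1 : Matrix ι ι ℂ)) =
      (Pf i0 i1 (t : Matrix ι ι ℝ) p ⊗ₖ (1 : Matrix ι ι ℂ)) * E := by
    intro t ht p
    have h1 := congrArg (fun X => L ι * X * Li ι) (hA t ht p)
    simp only [P4] at h1
    rw [hE]
    calc L ι * toC A * Li ι * (Pf i0 i1 (t : Matrix ι ι ℝ) p ⊗ₖ (1 : Matrix ι ι ℂ))
        = L ι * (toC A * (Li ι * (Pf i0 i1 (t : Matrix ι ι ℝ) p ⊗ₖ (1 : Matrix ι ι ℂ)) * L ι)) * Li ι := by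
          simp only [mul_assoc]; rw [L_mul_Li, mul_one]
      _ = L ι * (Li ι * (Pf i0 i1 (t : Matrix ι ι ℝ) p ⊗ₖ (1 : Matrix ι ι ℂ)) * L ι * toC A) * Li ι := h1
      _ = (L ι * Li ι) * (Pf i0 i1 (t : Matrix ι ι ℝ) p ⊗ₖ (1 : Matrix ι ι ℂ)) * (L ι * toC A * Li ι) := by
          simp only [mul_assoc]
      _ = _ := by rw [L_mul_Li, one_mul]
  have c1 : rC g * rC (gi i0 i1 g) = 1 := by rw [← rC_mul, mul_gi hg, rC_one]
  have c2 : rC (gi i0 i1 g) * rC g = 1 := by rw [← rC_mul, gi_mul hg, rC_one]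
  -- each block is a scalar
  have hblock : ∀ j l : ι, ∃ c : ℂ, (Matrix.of fun i k => E (i, j) (k, l)) = c • (1 : Matrix ι ι ℂ) := by
    intro j l
    obtain ⟨b, hb⟩ : ∃ b : Matrix ι ι ℂ, b = Matrix.of fun i k => E (i, j) (k, l) := ⟨_, rfl⟩
    rw [← hb]
    have hbt : ∀ t ∈ U, ∀ p, b * Pf i0 i1 (t : Matrix ι ι ℝ) p = Pf i0 i1 (t : Matrix ι ι ℝ) p * b := by
      intro t ht p
      rw [hb]
      exact block_comm (hEt t ht p) j l
    have hconj : ∀ {X : Matrix ι ι ℂ}, b * (rC g * X * rC (gi i0 i1 g)) = (rC g * X * rC (gi i0 i1 g)) * b →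
        (rC (gi i0 i1 g) * b * rC g) * X = X * (rC (gi i0 i1 g) * b * rC g) := by
      intro X hX
      calc (rC (gi i0 i1 g) * b * rC g) * X
          = rC (gi i0 i1 g) * (b * (rC g * X * rC (gi i0 i1 g))) * rC g := by
            simp only [mul_assoc]; rw [c2, mul_one]
        _ = rC (gi i0 i1 g) * ((rC g * X * rC (gi i0 i1 g)) * b) * rC g := by rw [hX]
        _ = (rC (gi i0 i1 g) * rC g) * X * (rC (gi i0 i1 g) * b * rC g) := by simp only [mul_assoc]
        _ = _ := by rw [c2, one_mul]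
    obtain ⟨c, hc⟩ := scalar_of_boosts h01 (b := rC (gi i0 i1 g) * b * rC g) hex
      (fun p => hconj (hbt ⟨g, hg⟩ hgU p)) (by
        intro m h0 h1
        have hiso : ∀ u : ℝ, g * bst i0 m u ∈ GT i0 i1 := by
          intro u
          have hg' : gᵀ * Dr i0 i1 * g = Dr i0 i1 := hg
          show (g * bst i0 m u)ᵀ * Dr i0 i1 * (g * bst i0 m u) = Dr i0 i1
          rw [Matrix.transpose_mul]
          calc _ = (bst i0 m u)ᵀ * (gᵀ * Dr i0 i1 * g) * bst i0 m u := by simp only [mul_assoc]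
            _ = _ := by rw [hg', bst_isom h0 h1]
        have hcont : Continuous fun u : ℝ => (⟨g * bst i0 m u, hiso u⟩ : GT i0 i1) :=
          Continuous.subtype_mk (continuous_const.matrix_mul (bst_cont i0 m)) _
        have hV : IsOpen ((fun u : ℝ => (⟨g * bst i0 m u, hiso u⟩ : GT i0 i1)) ⁻¹' U) := hU.preimage hcont
        have h0V : (0 : ℝ) ∈ ((fun u : ℝ => (⟨g * bst i0 m u, hiso u⟩ : GT i0 i1)) ⁻¹' U) := by
          rw [Set.mem_preimage]
          have h2 : (⟨g * bst i0 m 0, hiso 0⟩ : GT i0 i1) = ⟨g, hg⟩ := by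
            apply Subtype.ext
            show g * bst i0 m 0 = g
            rw [bst_zero (Ne.symm h0), mul_one]
          rw [h2]
          exact hgU
        obtain ⟨ε, hε, hball⟩ := Metric.isOpen_iff.1 hV 0 h0V
        have hu : ε / 2 ∈ Metric.ball (0 : ℝ) ε := by
          rw [Metric.mem_ball, Real.dist_eq, sub_zero, abs_of_pos (by linarith)]
          linarith
        refine ⟨ε / 2, by linarith, ?_⟩
        apply hconj
        have h2 := hbt _ (hball hu) 2
        have h3 : gi i0 i1 (g * bst i0 m (ε / 2)) = bst i0 m (-(ε / 2)) * gi i0 i1 g := by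
          have h4 := gi_mul (hiso (ε / 2))
          have h5 : (g * bst i0 m (ε / 2)) * (bst i0 m (-(ε / 2)) * gi i0 i1 g) = 1 := by
            calc _ = g * (bst i0 m (ε / 2) * bst i0 m (-(ε / 2))) * gi i0 i1 g := by simp only [mul_assoc]
              _ = 1 := by rw [bst_mul_neg (Ne.symm h0), mul_one, mul_gi hg]
          exact left_inv_eq_right_inv h4 h5
        have h6 : Pf i0 i1 (g * bst i0 m (ε / 2)) 2 =
            rC g * (rC (bst i0 m (ε / 2)) * Pb i0 i1 2 * rC (bst i0 m (-(ε / 2)))) * rC (gi i0 i1 g) := by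
          rw [Pf, h3, rC_mul, rC_mul]
          simp only [mul_assoc]
        rw [← h6]
        exact h2)
    refine ⟨c, ?_⟩
    calc b = (rC g * rC (gi i0 i1 g)) * b * (rC g * rC (gi i0 i1 g)) := by rw [c1, one_mul, mul_one]
      _ = rC g * (rC (gi i0 i1 g) * b * rC g) * rC (gi i0 i1 g) := by simp only [mul_assoc]
      _ = _ := by rw [hc, mul_smul_comm, mul_one, smul_mul_assoc, c1]
  choose la hla using hblock
  refine scalar_of_factor i0 la fun i j k l => ?_
  rw [← hE]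
  have h1 := congrFun (congrFun (hla j l) i) k
  rw [Matrix.of_apply, Matrix.smul_apply, Matrix.one_apply, smul_eq_mul] at h1
  rw [h1]
  split_ifs <;> simp

end PGN

end MH
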