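import Pool.Agent.Helper2.PGN.G2Defs

/-!
PrimeGeometricGenus (MP_b8862a_ag), construction (6): boosts of the split octonions.
-/

set_option linter.unusedSectionVars false

open Matrix

namespace MH

namespace G2

section
variable (R : Type*) [Ring R]

/-- an integral matrix over a ring -/
def iR (M : Matrix (Fin 7) (Fin 7) ℤ) : Matrix (Fin 7) (Fin 7) R := M.map (Int.castRingHom R)

variable {R}

theorem iR_mul (M N : Matrix (Fin 7) (Fin 7) ℤ) : iR R (M * N) = iR R M * iR R N := Matrix.map_mul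
theorem iR_one : iR R 1 = 1 := Matrix.map_one _ (map_zero _) (map_one _)
theorem iR_add (M N : Matrix (Fin 7) (Fin 7) ℤ) : iR R (M + N) = iR R M + iR R N := Matrix.map_add _ (map_add _) M N
theorem iR_sub (M N : Matrix (Fin 7) (Fin 7) ℤ) : iR R (M - N) = iR R M - iR R N := Matrix.map_sub _ (map_sub _) M N
theorem iR_neg (M : Matrix (Fin 7) (Fin 7) ℤ) : iR R (-M) = -iR R M := by
  ext i j
  simp [iR]
theorem iR_zero : iR R 0 = 0 := Matrix.map_zero _ (map_zero _)
theorem iR_tr (M : Matrix (Fin 7) (Fin 7) ℤ) : iR R Mᵀ = (iR R M)ᵀ := rfl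
theorem iR_sum (X : Matrix (Fin 7) (Fin 7) ℤ) (a : Fin 7) :
    iR R (∑ b, X b a • Lz b) = ∑ b, ((X b a : ℤ) : R) • iR R (Lz b) := by
  ext i j
  simp only [iR, Matrix.map_apply, Matrix.sum_apply, Matrix.smul_apply, smul_eq_mul, map_sum, map_mul]
  rfl
end

variable {X : Matrix (Fin 7) (Fin 7) ℝ} {c s : ℝ}

/-- a boost -/
noncomputable def bst (X : Matrix (Fin 7) (Fin 7) ℝ) (c s : ℝ) : Matrix (Fin 7) (Fin 7) ℝ := 1 + s • X + (c - 1) • (X * X)

theorem bst_inv (hX : X * X * X = X) (h : c ^ 2 - s ^ 2 = 1) : bst X c s * bst X c (-s) = 1 := by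
  have h3 : X * (X * X) = X := by rw [← mul_assoc, hX]
  have h4 : X * X * (X * X) = X * X := by rw [mul_assoc, h3]
  simp only [bst, add_mul, mul_add, smul_mul_assoc, mul_smul_comm, one_mul, mul_one, hX, h3, h4]
  match_scalars
  · ring
  · ring
  · linear_combination h

theorem bst_isom (hX : Xᵀ * iR ℝ Qz = -(iR ℝ Qz * X)) : (bst X c s)ᵀ * iR ℝ Qz = iR ℝ Qz * bst X c (-s) := by
  have h2 : Xᵀ * Xᵀ * iR ℝ Qz = iR ℝ Qz * (X * X) := by
    rw [mul_assoc, hX, mul_neg, ← mul_assoc, hX, neg_mul, neg_neg, mul_assoc]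
  simp only [bst, Matrix.transpose_add, Matrix.transpose_smul, Matrix.transpose_one, Matrix.transpose_mul, add_mul,
    mul_add, smul_mul_assoc, mul_smul_comm, one_mul, mul_one, hX, h2, smul_neg, neg_smul, mul_neg]

/-- the conjugation of a third order element -/
theorem conj_bst {Y : Matrix (Fin 7) (Fin 7) ℝ} (hX : X * X * X = X) (h : c ^ 2 - s ^ 2 = 1)
    (hY : X * (X * (X * Y - Y * X) - (X * Y - Y * X) * X) - (X * (X * Y - Y * X) - (X * Y - Y * X) * X) * X =
      X * Y - Y * X) :
    bst X c s * Y * bst X c (-s) =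
      Y + s • (X * Y - Y * X) + (c - 1) • (X * (X * Y - Y * X) - (X * Y - Y * X) * X) := by
  obtain ⟨U, hU⟩ : ∃ U, U = X * Y * (X * X) := ⟨_, rfl⟩
  have e1 : X * X * Y * X = U := by
    have h1 : (3 : ℝ) • (X * Y * (X * X) - X * X * Y * X) = 0 := by
      have h2 : X * (X * (X * Y - Y * X) - (X * Y - Y * X) * X) - (X * (X * Y - Y * X) - (X * Y - Y * X) * X) * X =
          X * X * X * Y - Y * (X * X * X) + (3 : ℝ) • (X * Y * (X * X) - X * X * Y * X) := by
        have h3 : (3 : ℝ) • (X * Y * (X * X) - X * X * Y * X) = (X * Y * (X * X) - X * X * Y * X) +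
            (X * Y * (X * X) - X * X * Y * X) + (X * Y * (X * X) - X * X * Y * X) := by module
        rw [h3]
        noncomm_ring
      rw [h2, hX] at hY
      have h4 : X * Y - Y * X + (3 : ℝ) • (X * Y * (X * X) - X * X * Y * X) - (X * Y - Y * X) = 0 := by
        rw [hY, sub_self]
      rwa [add_sub_cancel_left] at h4
    rw [smul_eq_zero] at h1
    rcases h1 with h1 | h1
    · norm_num at h1
    · rw [hU, eq_comm]
      exact sub_eq_zero.1 h1
  have e2 : X * X * Y * (X * X) = X * Y * X := by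
    calc X * X * Y * (X * X) = (X * X * Y * X) * X := by simp only [mul_assoc]
      _ = X * Y * (X * X) * X := by rw [e1, hU]
      _ = X * Y * (X * X * X) := by simp only [mul_assoc]
      _ = _ := by rw [hX]
  have l1 : bst X c s * Y * bst X c (-s) = Y - s • (Y * X) + (c - 1) • (Y * (X * X)) + s • (X * Y) -
      (s * s) • (X * Y * X) + (s * (c - 1)) • (X * Y * (X * X)) + (c - 1) • (X * X * Y) -
      ((c - 1) * s) • (X * X * Y * X) + ((c - 1) * (c - 1)) • (X * X * Y * (X * X)) := by
    simp only [bst, add_mul, mul_add, smul_mul_assoc, mul_smul_comm, one_mul, mul_one, mul_assoc]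
    module
  have l2 : X * (X * Y - Y * X) - (X * Y - Y * X) * X = X * X * Y - (2 : ℝ) • (X * Y * X) + Y * (X * X) := by
    have h3 : (2 : ℝ) • (X * Y * X) = X * Y * X + X * Y * X := by module
    rw [h3]
    noncomm_ring
  rw [l1, l2, e1, e2, ← hU]
  match_scalars
  · ring
  · ring
  · ring
  · ring
  · linear_combination h
  · ring
  · ring

/-- the odd part of the conjugation of the projection -/
theorem odd_part {Pi : Matrix (Fin 7) (Fin 7) ℝ} (hX : X * X * X = X) (h : Pi * X + X * Pi = X) :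
    bst X c s * Pi * bst X c (-s) - bst X c (-s) * Pi * bst X c s = (2 * s * c) • (X * Pi - Pi * X) := by
  have h1 : Pi * X = X - X * Pi := eq_sub_of_add_eq h
  have h2 : Pi * (X * X) = X * X * Pi := by
    rw [← mul_assoc, h1, sub_mul, mul_assoc X Pi X, h1]
    noncomm_ring
  have e1 : X * Pi * (X * X) = X * Pi := by
    rw [mul_assoc, h2, ← mul_assoc, ← mul_assoc, hX]
  have e2 : X * X * Pi * X = Pi * X := by
    rw [← h2]
    calc Pi * (X * X) * X = Pi * (X * X * X) := by simp only [mul_assoc]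
      _ = _ := by rw [hX]
  have l1 : bst X c s * Pi * bst X c (-s) - bst X c (-s) * Pi * bst X c s =
      (2 * s) • (X * Pi) - (2 * s) • (Pi * X) + (2 * s * (c - 1)) • (X * Pi * (X * X)) -
        (2 * s * (c - 1)) • (X * X * Pi * X) := by
    simp only [bst, add_mul, mul_add, smul_mul_assoc, mul_smul_comm, one_mul, mul_one, mul_assoc]
    module
  rw [l1, e1, e2]
  module

end G2

end MH
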