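import Pool.Agent.Helper2.PGN.G2A

/-!
PrimeGeometricGenus (MP_b8862a_ag), construction (6): the group of the split octonions and the base point.
-/

set_option linter.unusedSectionVars false

open Matrix

namespace MH

namespace G2

theorem rC_iR (M : Matrix (Fin 7) (Fin 7) ℤ) : rC (iR ℝ M) = iR ℂ M := by
  ext i j
  simp [rC, iR]

theorem toC_iR (M : Matrix (Fin 7) (Fin 7) ℤ) : toC (iR ℚ M) = iR ℂ M := by
  ext i j
  simp [toC, iR]

/-- the cross product with a vector -/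
def LL (R : Type*) [CommRing R] (v : Fin 7 → R) : Matrix (Fin 7) (Fin 7) R := ∑ b, v b • iR R (Lz b)

section
variable {R : Type*} [CommRing R]

theorem LL_add (v w : Fin 7 → R) : LL R (v + w) = LL R v + LL R w := by
  simp only [LL, Pi.add_apply, add_smul, Finset.sum_add_distrib]

theorem LL_smul (c : R) (v : Fin 7 → R) : LL R (c • v) = c • LL R v := by
  simp only [LL, Pi.smul_apply, smul_eq_mul, mul_smul, Finset.smul_sum]

theorem LL_single (a : Fin 7) : LL R (Pi.single a 1) = iR R (Lz a) := by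
  rw [LL, Finset.sum_eq_single a]
  · rw [Pi.single_eq_same, one_smul]
  · intro b _ hb
    rw [Pi.single_eq_of_ne hb, zero_smul]
  · intro h
    exact absurd (Finset.mem_univ _) h

/-- a derivation of the cross product -/
def IsDer (D : Matrix (Fin 7) (Fin 7) R) : Prop := ∀ v, D * LL R v - LL R v * D = LL R (D *ᵥ v)

theorem isDer_of {D : Matrix (Fin 7) (Fin 7) R}
    (h : ∀ a, D * iR R (Lz a) - iR R (Lz a) * D = ∑ b, D b a • iR R (Lz b)) : IsDer D := by
  intro v
  have e1 : D * LL R v - LL R v * D = ∑ a, v a • (D * iR R (Lz a) - iR R (Lz a) * D) := by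
    simp only [LL, Finset.mul_sum, Finset.sum_mul, mul_smul_comm, smul_mul_assoc, smul_sub, Finset.sum_sub_distrib]
  rw [e1]
  simp only [h, LL, Matrix.mulVec, dotProduct, Finset.smul_sum, Finset.sum_smul, smul_smul]
  rw [Finset.sum_comm]
  refine Finset.sum_congr rfl fun b _ => Finset.sum_congr rfl fun a _ => ?_
  rw [mul_comm]

theorem isDer_iR {X : Matrix (Fin 7) (Fin 7) ℤ} (h : ∀ a, X * Lz a - Lz a * X = ∑ b, X b a • Lz b) : IsDer (iR R X) := by
  refine isDer_of fun a => ?_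
  rw [← iR_mul, ← iR_mul, ← iR_sub, h, iR_sum]
  rfl

/-- an automorphism of the cross product -/
def IsAut (g : Matrix (Fin 7) (Fin 7) R) : Prop := ∀ v, g * LL R v = LL R (g *ᵥ v) * g

theorem IsAut.mul {g h : Matrix (Fin 7) (Fin 7) R} (hg : IsAut g) (hh : IsAut h) : IsAut (g * h) := by
  intro v
  rw [mul_assoc, hh, ← mul_assoc, hg, mul_assoc, Matrix.mulVec_mulVec]

theorem isAut_one : IsAut (1 : Matrix (Fin 7) (Fin 7) R) := by
  intro v
  rw [Matrix.one_mulVec, one_mul, mul_one]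

theorem IsDer.conj {g gi D : Matrix (Fin 7) (Fin 7) R} (hg : IsAut g) (h1 : g * gi = 1) (h2 : gi * g = 1) (hD : IsDer D) :
    IsDer (g * D * gi) := by
  intro v
  have hgi : gi * LL R v = LL R (gi *ᵥ v) * gi := by
    have e1 := hg (gi *ᵥ v)
    rw [Matrix.mulVec_mulVec, h1, Matrix.one_mulVec] at e1
    calc gi * LL R v = gi * (LL R v * g) * gi := by rw [mul_assoc, mul_assoc, h1, mul_one]
      _ = (gi * g) * LL R (gi *ᵥ v) * gi := by rw [← e1]; simp only [mul_assoc]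
      _ = _ := by rw [h2, one_mul]
  have hg' : LL R v * g = g * LL R (gi *ᵥ v) := by
    have e1 := hg (gi *ᵥ v)
    rw [Matrix.mulVec_mulVec, h1, Matrix.one_mulVec] at e1
    exact e1.symm
  calc g * D * gi * LL R v - LL R v * (g * D * gi)
      = g * D * (gi * LL R v) - (LL R v * g) * D * gi := by simp only [mul_assoc]
    _ = g * (D * LL R (gi *ᵥ v) - LL R (gi *ᵥ v) * D) * gi := by
        rw [hgi, hg']
        simp only [mul_assoc, mul_sub, sub_mul]
    _ = g * LL R (D *ᵥ (gi *ᵥ v)) * gi := by rw [hD]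
    _ = LL R (g *ᵥ (D *ᵥ (gi *ᵥ v))) * (g * gi) := by rw [hg, mul_assoc]
    _ = _ := by rw [h1, mul_one, Matrix.mulVec_mulVec, Matrix.mulVec_mulVec, mul_assoc]

end

theorem isAut_bst {X : Matrix (Fin 7) (Fin 7) ℝ} {c s : ℝ} (hX : X * X * X = X) (hD : IsDer X) (h : c ^ 2 - s ^ 2 = 1) :
    IsAut (bst X c s) := by
  intro v
  have h1 : X * LL ℝ v - LL ℝ v * X = LL ℝ (X *ᵥ v) := hD v
  have h2 : X * LL ℝ (X *ᵥ v) - LL ℝ (X *ᵥ v) * X = LL ℝ ((X * X) *ᵥ v) := by
    rw [hD, Matrix.mulVec_mulVec]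
  have h3 : X * LL ℝ ((X * X) *ᵥ v) - LL ℝ ((X * X) *ᵥ v) * X = LL ℝ (X *ᵥ v) := by
    rw [hD, Matrix.mulVec_mulVec, ← mul_assoc, hX]
  have h4 := conj_bst (Y := LL ℝ v) hX h (by rw [h1, h2, h3])
  rw [h1, h2, ← LL_smul, ← LL_smul, ← LL_add, ← LL_add] at h4
  have h5 : v + s • (X *ᵥ v) + (c - 1) • ((X * X) *ᵥ v) = bst X c s *ᵥ v := by
    rw [bst, Matrix.add_mulVec, Matrix.add_mulVec, Matrix.one_mulVec, Matrix.smul_mulVec, Matrix.smul_mulVec]
  rw [h5] at h4
  have h6 : bst X c (-s) * bst X c s = 1 := mul_eq_one_comm.1 (bst_inv hX h)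
  rw [← h4, mul_assoc, mul_assoc, h6, mul_one]

/-- the real automorphisms of the cross product that are isometries -/
def GT : Set (Matrix (Fin 7) (Fin 7) ℝ) := {g | gᵀ * iR ℝ Qz * g = iR ℝ Qz ∧ IsAut g}

theorem LL_cont : Continuous (LL ℝ) := by
  unfold LL
  exact continuous_finsetSum _ fun b _ => (continuous_apply b).smul continuous_const

theorem isClosed_GT : IsClosed GT := by
  have h1 : IsClosed {g : Matrix (Fin 7) (Fin 7) ℝ | gᵀ * iR ℝ Qz * g = iR ℝ Qz} :=
    isClosed_eq ((continuous_id.matrix_transpose.matrix_mul continuous_const).matrix_mul continuous_id) continuous_const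
  have h2 : IsClosed {g : Matrix (Fin 7) (Fin 7) ℝ | IsAut g} := by
    simp only [IsAut, Set.ofPred_forall]
    refine isClosed_iInter fun v => ?_
    refine isClosed_eq (continuous_id.matrix_mul continuous_const) (Continuous.matrix_mul ?_ continuous_id)
    exact LL_cont.comp (continuous_id.matrix_mulVec continuous_const)
  exact h1.inter h2

instance baire_GT : BaireSpace GT := by
  have : LocallyCompactSpace (Matrix (Fin 7) (Fin 7) ℝ) := inferInstanceAs (LocallyCompactSpace (Fin 7 → Fin 7 → ℝ))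
  have : LocallyCompactSpace GT := isClosed_GT.locallyCompactSpace
  infer_instance

instance nonempty_GT : Nonempty GT := ⟨⟨1, by rw [Matrix.transpose_one, one_mul, mul_one], isAut_one⟩⟩

theorem QQ_one {R : Type*} [Ring R] : iR R Qz * iR R Qz = 1 := by rw [← iR_mul, Qz_sq, iR_one]

/-- the inverse of an isometry -/
def gi (g : Matrix (Fin 7) (Fin 7) ℝ) : Matrix (Fin 7) (Fin 7) ℝ := iR ℝ Qz * gᵀ * iR ℝ Qz

theorem gi_mul {g : Matrix (Fin 7) (Fin 7) ℝ} (hg : g ∈ GT) : gi g * g = 1 := by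
  rw [gi, mul_assoc, mul_assoc, ← mul_assoc gᵀ, hg.1, QQ_one]

theorem mul_gi {g : Matrix (Fin 7) (Fin 7) ℝ} (hg : g ∈ GT) : g * gi g = 1 := mul_eq_one_comm.1 (gi_mul hg)

theorem gi_cont : Continuous gi := by
  unfold gi
  exact (continuous_const.matrix_mul continuous_id.matrix_transpose).matrix_mul continuous_const

theorem mul_bst_mem {X : Matrix (Fin 7) (Fin 7) ℤ} (hX : IsBst X) {g : Matrix (Fin 7) (Fin 7) ℝ} (hg : g ∈ GT) {c s : ℝ}
    (h : c ^ 2 - s ^ 2 = 1) : g * bst (iR ℝ X) c s ∈ GT := by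
  have hc : iR ℝ X * iR ℝ X * iR ℝ X = iR ℝ X := by rw [← iR_mul, ← iR_mul, hX.cube]
  have hs : (iR ℝ X)ᵀ * iR ℝ Qz = -(iR ℝ Qz * iR ℝ X) := by
    rw [← iR_tr, ← iR_mul, hX.skew, iR_neg, iR_mul]
  refine ⟨?_, hg.2.mul (isAut_bst hc (isDer_iR hX.der) h)⟩
  rw [Matrix.transpose_mul]
  calc _ = (bst (iR ℝ X) c s)ᵀ * (gᵀ * iR ℝ Qz * g) * bst (iR ℝ X) c s := by simp only [mul_assoc]
    _ = iR ℝ Qz * (bst (iR ℝ X) c (-s) * bst (iR ℝ X) c s) := by rw [hg.1, bst_isom hs, mul_assoc]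
    _ = _ := by rw [mul_eq_one_comm.1 (bst_inv hc h), mul_one]

end G2

end MH
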