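import Pool.Agent.Helper2.PGN.G2B
import Pool.Agent.Helper2.PGN.End3

/-!
PrimeGeometricGenus (MP_b8862a_ag), construction (6): the base point and the family.
-/

set_option linter.unusedSectionVars false

open Matrix

namespace MH

namespace G2

/-- the form over the rational numbers -/
def Q7 : Matrix (Fin 7) (Fin 7) ℚ := iR ℚ Qz

theorem toC_Q7 : toC Q7 = iR ℂ Qz := toC_iR Qz

/-- the projection to the piece `2` -/
noncomputable def PA : Matrix (Fin 7) (Fin 7) ℂ := (1 / 2 : ℂ) • (iR ℂ (1 - Pz) - Complex.I • iR ℂ Jz)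
/-- the projection to the piece `0` -/
noncomputable def PB : Matrix (Fin 7) (Fin 7) ℂ := (1 / 2 : ℂ) • (iR ℂ (1 - Pz) + Complex.I • iR ℂ Jz)

/-- the base point -/
noncomputable def Pb : ℤ → Matrix (Fin 7) (Fin 7) ℂ := PGN.tri PA PB (iR ℂ Pz)

theorem e1 : iR ℂ (1 - Pz) * iR ℂ (1 - Pz) = iR ℂ (1 - Pz) := by rw [← iR_mul]; congr 1; decide +kernel
theorem e2 : iR ℂ (1 - Pz) * iR ℂ Jz = iR ℂ Jz := by rw [← iR_mul]; congr 1; decide +kernel
theorem e3 : iR ℂ Jz * iR ℂ (1 - Pz) = iR ℂ Jz := by rw [← iR_mul]; congr 1; decide +kernel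
theorem e4 : iR ℂ Jz * iR ℂ Jz = -iR ℂ (1 - Pz) := by rw [← iR_mul, ← iR_neg]; congr 1; decide +kernel
theorem e5 : iR ℂ Pz * iR ℂ (1 - Pz) = 0 := by rw [← iR_mul, ← iR_zero (R := ℂ)]; congr 1; decide +kernel
theorem e6 : iR ℂ (1 - Pz) * iR ℂ Pz = 0 := by rw [← iR_mul, ← iR_zero (R := ℂ)]; congr 1; decide +kernel
theorem e7 : iR ℂ Pz * iR ℂ Jz = 0 := by rw [← iR_mul, Pz_Jz, iR_zero]
theorem e8 : iR ℂ Jz * iR ℂ Pz = 0 := by rw [← iR_mul, Jz_Pz, iR_zero]
theorem e9 : iR ℂ Pz * iR ℂ Pz = iR ℂ Pz := by rw [← iR_mul, Pz_sq]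

theorem AA : PA * PA = PA := by
  simp only [PA, mul_sub, sub_mul, smul_mul_assoc, mul_smul_comm, e1, e2, e3, e4]
  match_scalars
  · linear_combination (-1 / 4 : ℂ) * Complex.I_mul_I
  · ring

theorem BB : PB * PB = PB := by
  simp only [PB, mul_add, add_mul, smul_mul_assoc, mul_smul_comm, e1, e2, e3, e4]
  match_scalars
  · linear_combination (-1 / 4 : ℂ) * Complex.I_mul_I
  · ring

theorem AB : PA * PB = 0 := by
  simp only [PA, PB, mul_add, sub_mul, mul_sub, add_mul, smul_mul_assoc, mul_smul_comm, e1, e2, e3, e4]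
  match_scalars
  · linear_combination (1 / 4 : ℂ) * Complex.I_mul_I
  · ring

theorem BA : PB * PA = 0 := by
  simp only [PA, PB, mul_add, sub_mul, mul_sub, add_mul, smul_mul_assoc, mul_smul_comm, e1, e2, e3, e4]
  match_scalars
  · linear_combination (1 / 4 : ℂ) * Complex.I_mul_I
  · ring

theorem AC : PA * iR ℂ Pz = 0 := by
  simp only [PA, sub_mul, smul_mul_assoc, e6, e8, smul_zero, sub_zero]
theorem CA : iR ℂ Pz * PA = 0 := by
  simp only [PA, mul_sub, mul_smul_comm, e5, e7, smul_zero, sub_zero]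
theorem BC : PB * iR ℂ Pz = 0 := by
  simp only [PB, add_mul, smul_mul_assoc, e6, e8, smul_zero, add_zero]
theorem CB : iR ℂ Pz * PB = 0 := by
  simp only [PB, mul_add, mul_smul_comm, e5, e7, smul_zero, add_zero]

theorem AQ : PAᵀ * iR ℂ Qz = iR ℂ Qz * PB := by
  have h1 : (iR ℂ Jz)ᵀ * iR ℂ Qz = -(iR ℂ Qz * iR ℂ Jz) := by rw [← iR_tr, ← iR_mul, Jz_skew, iR_neg, iR_mul]
  have h2 : (iR ℂ (1 - Pz))ᵀ * iR ℂ Qz = iR ℂ Qz * iR ℂ (1 - Pz) := by
    rw [← iR_tr, ← iR_mul, ← iR_mul]; congr 1; decide +kernel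
  simp only [PA, PB, Matrix.transpose_smul, Matrix.transpose_sub, smul_mul_assoc, sub_mul, h1, h2, mul_smul_comm, mul_add,
    smul_neg, sub_neg_eq_add]

theorem BQ : PBᵀ * iR ℂ Qz = iR ℂ Qz * PA := by
  have h1 : (iR ℂ Jz)ᵀ * iR ℂ Qz = -(iR ℂ Qz * iR ℂ Jz) := by rw [← iR_tr, ← iR_mul, Jz_skew, iR_neg, iR_mul]
  have h2 : (iR ℂ (1 - Pz))ᵀ * iR ℂ Qz = iR ℂ Qz * iR ℂ (1 - Pz) := by
    rw [← iR_tr, ← iR_mul, ← iR_mul]; congr 1; decide +kernel
  simp only [PA, PB, Matrix.transpose_smul, Matrix.transpose_add, smul_mul_assoc, add_mul, h1, h2, mul_smul_comm, mul_sub,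
    smul_neg, ← sub_eq_add_neg]

theorem CQ : (iR ℂ Pz)ᵀ * iR ℂ Qz = iR ℂ Qz * iR ℂ Pz := by
  rw [← iR_tr, Pz_tr, ← iR_mul, Pz_Qz, iR_mul]

theorem conj_two : (starRingEnd ℂ) 2 = 2 := map_ofNat _ 2

theorem A_conj : PA.map (starRingEnd ℂ) = PB := by
  ext i j
  simp [PA, PB, iR, conj_two]

theorem B_conj : PB.map (starRingEnd ℂ) = PA := by
  ext i j
  simp [PA, PB, iR, conj_two]
  ring

theorem C_conj : (iR ℂ Pz).map (starRingEnd ℂ) = iR ℂ Pz := by
  ext i j
  simp [iR]

theorem ABC_sum : PB + iR ℂ Pz + PA = 1 := by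
  have h1 : iR ℂ (1 - Pz) = 1 - iR ℂ Pz := by rw [iR_sub, iR_one]
  rw [PA, PB, h1]
  module

theorem form_q (v : Fin 7 → ℂ) : v ⬝ᵥ (iR ℂ Qz *ᵥ star v) =
    ((∑ i, ((qz i : ℤ) : ℝ) * Complex.normSq (v i) : ℝ) : ℂ) := by
  have h1 : iR ℂ Qz = Matrix.diagonal fun i => ((qz i : ℤ) : ℂ) := by
    rw [iR, Qz, Matrix.diagonal_map (map_zero _)]
    rfl
  rw [h1]
  exact PGN.form_eq (fun i => by push_cast; rfl) v

theorem exists_ne (v : Fin 7 → ℂ) (hv : v ≠ 0) : ∃ i, v i ≠ 0 := by
  by_contra h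
  push Not at h
  exact hv (funext h)

theorem isHW_base : IsHW 2 Q7 {0, 1, 2} Pb := by
  have hQ : toC Q7 = iR ℂ Qz := toC_Q7
  have hneg : ∀ v : Fin 7 → ℂ, iR ℂ (1 - Pz) *ᵥ v = v → v ≠ 0 →
      0 < (-1 * (v ⬝ᵥ (toC Q7 *ᵥ star v))).re := by
    intro v hv hv0
    rw [hQ, form_q, ← Complex.ofReal_one, ← Complex.ofReal_neg, ← Complex.ofReal_mul, Complex.ofReal_re]
    have hz : v 0 = 0 ∧ v 1 = 0 ∧ v 2 = 0 := by
      refine ⟨?_, ?_, ?_⟩
      all_goals
        rw [← hv]
        simp [iR, Pz, Matrix.mulVec, dotProduct, Matrix.one_apply, Matrix.diagonal_apply]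
    obtain ⟨i, hi⟩ := exists_ne v hv0
    have hp := Complex.normSq_pos.2 hi
    have hn := fun j => Complex.normSq_nonneg (v j)
    have hs : (-1 : ℝ) * ∑ i, ((qz i : ℤ) : ℝ) * Complex.normSq (v i) =
        Complex.normSq (v 3) + Complex.normSq (v 4) + Complex.normSq (v 5) + Complex.normSq (v 6) := by
      rw [Fin.sum_univ_seven, hz.1, hz.2.1, hz.2.2]
      simp [qz]
      ring
    rw [hs]
    have h3 := hn 3
    have h4 := hn 4
    have h5 := hn 5
    have h6 := hn 6
    fin_cases i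
    · exact absurd hz.1 hi
    · exact absurd hz.2.1 hi
    · exact absurd hz.2.2 hi
    · have : 0 < Complex.normSq (v 3) := hp
      linarith
    · have : 0 < Complex.normSq (v 4) := hp
      linarith
    · have : 0 < Complex.normSq (v 5) := hp
      linarith
    · have : 0 < Complex.normSq (v 6) := hp
      linarith
  have hpos : ∀ v : Fin 7 → ℂ, iR ℂ Pz *ᵥ v = v → v ≠ 0 → 0 < (1 * (v ⬝ᵥ (toC Q7 *ᵥ star v))).re := by
    intro v hv hv0
    rw [hQ, form_q, one_mul, Complex.ofReal_re]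
    have hz : v 3 = 0 ∧ v 4 = 0 ∧ v 5 = 0 ∧ v 6 = 0 := by
      refine ⟨?_, ?_, ?_, ?_⟩
      all_goals
        rw [← hv]
        simp [iR, Pz, Matrix.mulVec, dotProduct, Matrix.diagonal_apply]
    obtain ⟨i, hi⟩ := exists_ne v hv0
    have hp := Complex.normSq_pos.2 hi
    have hn := fun j => Complex.normSq_nonneg (v j)
    have hs : ∑ i, ((qz i : ℤ) : ℝ) * Complex.normSq (v i) =
        Complex.normSq (v 0) + Complex.normSq (v 1) + Complex.normSq (v 2) := by
      have e3 : v 3 = 0 := hz.1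
      have e4 : v 4 = 0 := hz.2.1
      have e5 : v 5 = 0 := hz.2.2.1
      have e6 : v 6 = 0 := hz.2.2.2
      rw [Fin.sum_univ_seven, e3, e4, e5, e6]
      simp [qz]
    rw [hs]
    have h0 := hn 0
    have h1 := hn 1
    have h2 := hn 2
    fin_cases i
    · have : 0 < Complex.normSq (v 0) := hp
      linarith
    · have : 0 < Complex.normSq (v 1) := hp
      linarith
    · have : 0 < Complex.normSq (v 2) := hp
      linarith
    · exact absurd hz.1 hi
    · exact absurd hz.2.1 hi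
    · exact absurd hz.2.2.1 hi
    · exact absurd hz.2.2.2 hi
  have hA : ∀ v, PA *ᵥ v = v → iR ℂ (1 - Pz) *ᵥ v = v := by
    intro v hv
    have h1 : iR ℂ (1 - Pz) * PA = PA := by
      simp only [PA, mul_sub, mul_smul_comm, e1, e2]
    rw [← hv, Matrix.mulVec_mulVec, h1]
  have hB : ∀ v, PB *ᵥ v = v → iR ℂ (1 - Pz) *ᵥ v = v := by
    intro v hv
    have h1 : iR ℂ (1 - Pz) * PB = PB := by
      simp only [PB, mul_add, mul_smul_comm, e1, e2]
    rw [← hv, Matrix.mulVec_mulVec, h1]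
  refine ⟨?_, ?_, ?_, ?_, ?_, ?_, ?_⟩
  · intro p q
    by_cases hp2 : p = 2
    · subst hp2
      by_cases hq2 : q = 2
      · subst hq2; rw [if_pos rfl]; simp only [Pb, PGN.tri_two]; exact AA
      · rw [if_neg (Ne.symm hq2)]
        by_cases hq0 : q = 0
        · subst hq0; simp only [Pb, PGN.tri_two, PGN.tri_zero]; exact AB
        · by_cases hq1 : q = 1
          · subst hq1; simp only [Pb, PGN.tri_two, PGN.tri_one]; exact AC
          · rw [Pb, PGN.tri_else _ _ _ hq2 hq0 hq1, mul_zero]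
    · by_cases hp0 : p = 0
      · subst hp0
        by_cases hq2 : q = 2
        · subst hq2; rw [if_neg (by norm_num)]; simp only [Pb, PGN.tri_two, PGN.tri_zero]; exact BA
        · by_cases hq0 : q = 0
          · subst hq0; rw [if_pos rfl]; simp only [Pb, PGN.tri_zero]; exact BB
          · rw [if_neg (Ne.symm hq0)]
            by_cases hq1 : q = 1
            · subst hq1; simp only [Pb, PGN.tri_zero, PGN.tri_one]; exact BC
            · rw [Pb, PGN.tri_else _ _ _ hq2 hq0 hq1, mul_zero]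
      · by_cases hp1 : p = 1
        · subst hp1
          by_cases hq2 : q = 2
          · subst hq2; rw [if_neg (by norm_num)]; simp only [Pb, PGN.tri_two, PGN.tri_one]; exact CA
          · by_cases hq0 : q = 0
            · subst hq0; rw [if_neg (by norm_num)]; simp only [Pb, PGN.tri_zero, PGN.tri_one]; exact CB
            · by_cases hq1 : q = 1
              · subst hq1; rw [if_pos rfl]; simp only [Pb, PGN.tri_one]; exact e9
              · rw [if_neg (Ne.symm hq1), Pb, PGN.tri_else _ _ _ hq2 hq0 hq1, mul_zero]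
        · have h0 : Pb p = 0 := PGN.tri_else _ _ _ hp2 hp0 hp1
          rw [h0, zero_mul, ite_self]
  · intro p hp
    simp only [Finset.mem_insert, Finset.mem_singleton, not_or] at hp
    exact PGN.tri_else _ _ _ hp.2.2 hp.1 hp.2.1
  · rw [Finset.sum_insert (by decide), Finset.sum_insert (by decide), Finset.sum_singleton]
    simp only [Pb, PGN.tri_zero, PGN.tri_one, PGN.tri_two]
    rw [← add_assoc]
    exact ABC_sum
  · intro p
    by_cases hp2 : p = 2
    · subst hp2
      have e : (2 : ℤ) - 2 = 0 := by norm_num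
      rw [e]; simp only [Pb, PGN.tri_zero, PGN.tri_two]; exact A_conj
    · by_cases hp0 : p = 0
      · subst hp0
        have e : (2 : ℤ) - 0 = 2 := by norm_num
        rw [e]; simp only [Pb, PGN.tri_zero, PGN.tri_two]; exact B_conj
      · by_cases hp1 : p = 1
        · subst hp1
          have e : (2 : ℤ) - 1 = 1 := by norm_num
          rw [e]; simp only [Pb, PGN.tri_one]; exact C_conj
        · rw [Pb, PGN.tri_else _ _ _ hp2 hp0 hp1, PGN.tri_else _ _ _ (by omega) (by omega) (by omega)]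
          exact Matrix.map_zero _ (map_zero _)
  · have e : (-1 : ℚ) ^ (2 : ℤ) = 1 := by norm_num
    rw [e, one_smul, Q7, ← iR_tr, Qz_tr]
  · intro p q hpq
    rw [hQ]
    by_cases hp2 : p = 2
    · subst hp2
      simp only [Pb, PGN.tri_two]
      rw [AQ, mul_assoc]
      by_cases hq2 : q = 2
      · subst hq2; rw [PGN.tri_two, BA, mul_zero]
      · by_cases hq0 : q = 0
        · exact absurd (by rw [hq0]; norm_num) hpq
        · by_cases hq1 : q = 1
          · subst hq1; rw [PGN.tri_one, BC, mul_zero]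
          · rw [PGN.tri_else _ _ _ hq2 hq0 hq1, mul_zero, mul_zero]
    · by_cases hp0 : p = 0
      · subst hp0
        simp only [Pb, PGN.tri_zero]
        rw [BQ, mul_assoc]
        by_cases hq2 : q = 2
        · exact absurd (by rw [hq2]; norm_num) hpq
        · by_cases hq0 : q = 0
          · subst hq0; rw [PGN.tri_zero, AB, mul_zero]
          · by_cases hq1 : q = 1
            · subst hq1; rw [PGN.tri_one, AC, mul_zero]
            · rw [PGN.tri_else _ _ _ hq2 hq0 hq1, mul_zero, mul_zero]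
      · by_cases hp1 : p = 1
        · subst hp1
          simp only [Pb, PGN.tri_one]
          rw [CQ, mul_assoc]
          by_cases hq2 : q = 2
          · subst hq2; rw [PGN.tri_two, CA, mul_zero]
          · by_cases hq0 : q = 0
            · subst hq0; rw [PGN.tri_zero, CB, mul_zero]
            · by_cases hq1 : q = 1
              · exact absurd (by rw [hq1]; norm_num) hpq
              · rw [PGN.tri_else _ _ _ hq2 hq0 hq1, mul_zero, mul_zero]
        · have h0 : Pb p = 0 := PGN.tri_else _ _ _ hp2 hp0 hp1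
          rw [h0, Matrix.transpose_zero, zero_mul, zero_mul]
  · intro p v hv hv0
    by_cases hp2 : p = 2
    · subst hp2
      have h1 : Complex.I ^ (2 * 2 - 2 : ℤ) = -1 := by
        have e : (2 * 2 - 2 : ℤ) = 2 := by norm_num
        rw [e, zpow_ofNat, Complex.I_sq]
      rw [h1]
      simp only [Pb, PGN.tri_two] at hv
      exact hneg v (hA v hv) hv0
    · by_cases hp0 : p = 0
      · subst hp0
        have h1 : Complex.I ^ (2 * 0 - 2 : ℤ) = -1 := by
          have e : (2 * 0 - 2 : ℤ) = -2 := by norm_num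
          rw [e, _root_.zpow_neg, zpow_ofNat, Complex.I_sq]
          norm_num
        rw [h1]
        simp only [Pb, PGN.tri_zero] at hv
        exact hneg v (hB v hv) hv0
      · by_cases hp1 : p = 1
        · subst hp1
          have h1 : Complex.I ^ (2 * 1 - 2 : ℤ) = 1 := by
            have e : (2 * 1 - 2 : ℤ) = 0 := by norm_num
            rw [e, zpow_zero]
          rw [h1]
          simp only [Pb, PGN.tri_one] at hv
          exact hpos v hv hv0
        · have h0 : Pb p = 0 := PGN.tri_else _ _ _ hp2 hp0 hp1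
          rw [h0, Matrix.zero_mulVec] at hv
          exact absurd hv.symm hv0

/-- the family -/
noncomputable def Pf (g : Matrix (Fin 7) (Fin 7) ℝ) (p : ℤ) : Matrix (Fin 7) (Fin 7) ℂ := rC g * Pb p * rC (gi g)

theorem isHW_Pf {g : Matrix (Fin 7) (Fin 7) ℝ} (hg : g ∈ GT) : IsHW 2 Q7 {0, 1, 2} (Pf g) := by
  refine isHW_base.conj27 ?_ ?_ (rC_conj g) ?_
  · rw [← rC_mul, mul_gi hg, rC_one]
  · rw [← rC_mul, gi_mul hg, rC_one]
  · rw [toC_Q7, ← rC_iR, ← rC_transpose, ← rC_mul, ← rC_mul, hg.1]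

theorem Pf_cont (p : ℤ) : Continuous fun g => Pf g p :=
  (PGN.rC_cont.matrix_mul continuous_const).matrix_mul (PGN.rC_cont.comp gi_cont)

end G2

end MH
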