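import Pool.Agent.Helper2.PGN.G2C

/-!
PrimeGeometricGenus (MP_b8862a_ag), construction (6): a generic member of the family has the endomorphisms `ℚ`.
-/

set_option linter.unusedSectionVars false

open Matrix

namespace MH

namespace G2

theorem comm_mul {B Y Z : Matrix (Fin 7) (Fin 7) ℂ} (h1 : B * Y = Y * B) (h2 : B * Z = Z * B) :
    B * (Y * Z) = Y * Z * B := by
  rw [← mul_assoc, h1, mul_assoc, h2, mul_assoc]

theorem comm_sub {B Y Z : Matrix (Fin 7) (Fin 7) ℂ} (h1 : B * Y = Y * B) (h2 : B * Z = Z * B) :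
    B * (Y - Z) = (Y - Z) * B := by
  rw [mul_sub, sub_mul, h1, h2]

/-- a matrix that commutes with the projection and its conjugates with two opposite boosts commutes with the generator -/
theorem comm_X {X : Matrix (Fin 7) (Fin 7) ℤ} (hX : IsBst X) {B : Matrix (Fin 7) (Fin 7) ℂ}
    (hP : B * iR ℂ Pz = iR ℂ Pz * B) {c s : ℝ} (hc : c ≠ 0) (hs : s ≠ 0)
    (h1 : B * (rC (bst (iR ℝ X) c s) * iR ℂ Pz * rC (bst (iR ℝ X) c (-s))) =
      (rC (bst (iR ℝ X) c s) * iR ℂ Pz * rC (bst (iR ℝ X) c (-s))) * B)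
    (h2 : B * (rC (bst (iR ℝ X) c (-s)) * iR ℂ Pz * rC (bst (iR ℝ X) c s)) =
      (rC (bst (iR ℝ X) c (-s)) * iR ℂ Pz * rC (bst (iR ℝ X) c s)) * B) : B * iR ℂ X = iR ℂ X * B := by
  have hcu : iR ℝ X * iR ℝ X * iR ℝ X = iR ℝ X := by rw [← iR_mul, ← iR_mul, hX.cube]
  have hof : iR ℝ Pz * iR ℝ X + iR ℝ X * iR ℝ Pz = iR ℝ X := by rw [← iR_mul, ← iR_mul, ← iR_add, hX.off]
  have ho := congrArg rC (odd_part (c := c) (s := s) hcu hof)
  have hsub : ∀ M N : Matrix (Fin 7) (Fin 7) ℝ, rC (M - N) = rC M - rC N := by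
    intro M N
    ext i j
    simp [rC]
  have hsm : ∀ (r : ℝ) (M : Matrix (Fin 7) (Fin 7) ℝ), rC (r • M) = (r : ℂ) • rC M := by
    intro r M
    ext i j
    simp [rC]
  rw [hsub, hsm, hsub, rC_mul, rC_mul, rC_mul, rC_mul, rC_mul, rC_mul, rC_iR, rC_iR] at ho
  have h3 := comm_sub h1 h2
  rw [ho, mul_smul_comm, smul_mul_assoc] at h3
  have h4 : ((2 * s * c : ℝ) : ℂ) ≠ 0 := by
    rw [Ne, Complex.ofReal_eq_zero]
    exact mul_ne_zero (mul_ne_zero two_ne_zero hs) hc
  have h5 := smul_right_injective (Matrix (Fin 7) (Fin 7) ℂ) h4 h3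
  obtain ⟨W, hW⟩ : ∃ W, W = iR ℂ X * iR ℂ Pz - iR ℂ Pz * iR ℂ X := ⟨_, rfl⟩
  have h6 : B * W = W * B := by rw [hW]; exact h5
  have h7 : iR ℂ X = W * iR ℂ Pz - iR ℂ Pz * W := by
    have e1 : X = (X * Pz - Pz * X) * Pz - Pz * (X * Pz - Pz * X) := by
      have e2 : Pz * X = X - X * Pz := eq_sub_of_add_eq hX.off
      have e3 : Pz * X * Pz = 0 := by rw [e2, sub_mul, mul_assoc, Pz_sq, sub_self]
      have e4 : (X * Pz - Pz * X) * Pz - Pz * (X * Pz - Pz * X) = X * (Pz * Pz) + (Pz * Pz) * X - (Pz * X * Pz + Pz * X * Pz) := by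
        noncomm_ring
      rw [e4, Pz_sq, e3, add_zero, sub_zero, add_comm, hX.off]
    conv_lhs => rw [e1]
    rw [iR_sub, iR_mul, iR_mul, iR_sub, iR_mul, iR_mul, ← hW]
  rw [h7]
  exact comm_sub (comm_mul h6 hP) (comm_mul hP h6)

/-- a matrix that commutes with the three generators is a scalar -/
theorem scalar_of_comm {B : Matrix (Fin 7) (Fin 7) ℂ} (h1 : B * iR ℂ X1 = iR ℂ X1 * B) (h2 : B * iR ℂ X2 = iR ℂ X2 * B)
    (h3 : B * iR ℂ X3 = iR ℂ X3 * B) : B = B 0 0 • (1 : Matrix (Fin 7) (Fin 7) ℂ) := by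
  have hone : B * 1 = 1 * B := by rw [mul_one, one_mul]
  have hfac : ∀ (X : Matrix (Fin 7) (Fin 7) ℤ) (e : Bool), B * iR ℂ X = iR ℂ X * B →
      B * iR ℂ (if e then X * X else 1 - X * X) = iR ℂ (if e then X * X else 1 - X * X) * B := by
    intro X e h
    cases e
    · rw [if_neg (by decide), iR_sub, iR_one, iR_mul]
      exact comm_sub hone (comm_mul h h)
    · rw [if_pos rfl, iR_mul]
      exact comm_mul h h
  have hdiag : ∀ i a, i ≠ a → B i a = 0 := by
    intro i a hia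
    obtain ⟨e, he⟩ := proj_eq a
    have h4 := comm_mul (comm_mul (hfac X1 (e 0) h1) (hfac X2 (e 1) h2)) (hfac X3 (e 2) h3)
    rw [← iR_mul, ← iR_mul, he] at h4
    have h5 : iR ℂ (Matrix.single a a 1) = Matrix.single a a (1 : ℂ) := by
      ext x y
      simp only [iR, Matrix.map_apply, Matrix.single_apply]
      split_ifs <;> simp
    rw [h5] at h4
    have h6 := congrFun (congrFun h4 i) a
    rwa [Matrix.mul_single_apply_same, mul_one, Matrix.single_mul_apply_of_ne _ _ _ _ _ hia] at h6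
  have hB : B = Matrix.diagonal fun i => B i i := by
    ext i j
    rw [Matrix.diagonal_apply]
    split_ifs with h
    · rw [h]
    · exact hdiag i j h
  have hent : ∀ X : Matrix (Fin 7) (Fin 7) ℤ, B * iR ℂ X = iR ℂ X * B → ∀ i j, X i j ≠ 0 → B i i = B j j := by
    intro X hX i j hij
    rw [hB] at hX
    have h4 := congrFun (congrFun hX i) j
    rw [Matrix.diagonal_mul, Matrix.mul_diagonal, mul_comm] at h4
    have h5 : iR ℂ X i j ≠ 0 := by
      rw [iR, Matrix.map_apply]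
      simpa using hij
    exact mul_left_cancel₀ h5 h4
  have a13 := hent X1 h1 1 3 (by decide)
  have a24 := hent X1 h1 2 4 (by decide)
  have a15 := hent X2 h2 1 5 (by decide)
  have a26 := hent X2 h2 2 6 (by decide)
  have a03 := hent X3 h3 0 3 (by decide)
  have a25 := hent X3 h3 2 5 (by decide)
  have hall : ∀ i, B i i = B 0 0 := by
    intro i
    fin_cases i
    · rfl
    · exact a13.trans a03.symm
    · exact (a25.trans a15.symm).trans (a13.trans a03.symm)
    · exact a03.symm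
    · exact a24.symm.trans ((a25.trans a15.symm).trans (a13.trans a03.symm))
    · exact a15.symm.trans (a13.trans a03.symm)
    · exact a26.symm.trans ((a25.trans a15.symm).trans (a13.trans a03.symm))
  conv_lhs => rw [hB]
  ext i j
  rw [Matrix.diagonal_apply, Matrix.smul_apply, Matrix.one_apply, smul_eq_mul]
  split_ifs with h
  · rw [hall i, mul_one]
  · rw [mul_zero]

theorem gi_mul_bst {X : Matrix (Fin 7) (Fin 7) ℤ} (hX : IsBst X) {g : Matrix (Fin 7) (Fin 7) ℝ} (hg : g ∈ GT) {c s : ℝ}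
    (h : c ^ 2 - s ^ 2 = 1) : gi (g * bst (iR ℝ X) c s) = bst (iR ℝ X) c (-s) * gi g := by
  have hcu : iR ℝ X * iR ℝ X * iR ℝ X = iR ℝ X := by rw [← iR_mul, ← iR_mul, hX.cube]
  have h4 := gi_mul (mul_bst_mem hX hg h)
  have h5 : (g * bst (iR ℝ X) c s) * (bst (iR ℝ X) c (-s) * gi g) = 1 := by
    calc _ = g * (bst (iR ℝ X) c s * bst (iR ℝ X) c (-s)) * gi g := by simp only [mul_assoc]
      _ = 1 := by rw [bst_inv hcu h, mul_one, mul_gi hg]
  exact left_inv_eq_right_inv h4 h5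

theorem bst_cont (X : Matrix (Fin 7) (Fin 7) ℝ) : Continuous fun t : ℝ => bst X (Real.cosh t) (Real.sinh t) := by
  unfold bst
  exact (continuous_const.add (Real.continuous_sinh.smul continuous_const)).add
    ((Real.continuous_cosh.sub continuous_const).smul continuous_const)

theorem bst_zero (X : Matrix (Fin 7) (Fin 7) ℝ) : bst X (Real.cosh 0) (Real.sinh 0) = 1 := by
  rw [bst, Real.cosh_zero, Real.sinh_zero, sub_self, zero_smul, zero_smul, add_zero, add_zero]

theorem cs_eq (t : ℝ) : Real.cosh t ^ 2 - Real.sinh t ^ 2 = 1 := by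
  rw [Real.cosh_sq]; ring

/-- a rational matrix that commutes with all the projections of an open part of the family is a scalar -/
theorem hgen6 (U : Set GT) (hU : IsOpen U) (hne : U.Nonempty) (A : Matrix (Fin 7) (Fin 7) ℚ)
    (hA : ∀ t ∈ U, ∀ p, toC A * Pf (t : Matrix (Fin 7) (Fin 7) ℝ) p = Pf (t : Matrix (Fin 7) (Fin 7) ℝ) p * toC A) :
    ∃ c : ℚ, A = c • (1 : Matrix (Fin 7) (Fin 7) ℚ) := by
  obtain ⟨⟨g, hg⟩, hgU⟩ := hne
  have c1 : rC g * rC (gi g) = 1 := by rw [← rC_mul, mul_gi hg, rC_one]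
  have c2 : rC (gi g) * rC g = 1 := by rw [← rC_mul, gi_mul hg, rC_one]
  obtain ⟨B, hB⟩ : ∃ B, B = rC (gi g) * toC A * rC g := ⟨_, rfl⟩
  have hconj : ∀ {Y : Matrix (Fin 7) (Fin 7) ℂ}, toC A * (rC g * Y * rC (gi g)) = (rC g * Y * rC (gi g)) * toC A →
      B * Y = Y * B := by
    intro Y hY
    rw [hB]
    calc rC (gi g) * toC A * rC g * Y
        = rC (gi g) * (toC A * (rC g * Y * rC (gi g))) * rC g := by
          simp only [mul_assoc]; rw [c2, mul_one]
      _ = rC (gi g) * ((rC g * Y * rC (gi g)) * toC A) * rC g := by rw [hY]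
      _ = (rC (gi g) * rC g) * Y * (rC (gi g) * toC A * rC g) := by simp only [mul_assoc]
      _ = _ := by rw [c2, one_mul]
  have hP : B * iR ℂ Pz = iR ℂ Pz * B := by
    apply hconj
    have h1 := hA ⟨g, hg⟩ hgU 1
    simp only [Pf, Pb, PGN.tri_one] at h1
    exact h1
  have hXB : ∀ X : Matrix (Fin 7) (Fin 7) ℤ, IsBst X → B * iR ℂ X = iR ℂ X * B := by
    intro X hX
    have hcont : Continuous fun t : ℝ => (⟨g * bst (iR ℝ X) (Real.cosh t) (Real.sinh t),
        mul_bst_mem hX hg (cs_eq t)⟩ : GT) :=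
      Continuous.subtype_mk (continuous_const.matrix_mul (bst_cont _)) _
    have hV := hU.preimage hcont
    have h0V : (0 : ℝ) ∈ ((fun t : ℝ => (⟨g * bst (iR ℝ X) (Real.cosh t) (Real.sinh t),
        mul_bst_mem hX hg (cs_eq t)⟩ : GT)) ⁻¹' U) := by
      rw [Set.mem_preimage]
      have h2 : (⟨g * bst (iR ℝ X) (Real.cosh 0) (Real.sinh 0), mul_bst_mem hX hg (cs_eq 0)⟩ : GT) = ⟨g, hg⟩ := by
        apply Subtype.ext
        show g * bst (iR ℝ X) (Real.cosh 0) (Real.sinh 0) = g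
        rw [bst_zero, mul_one]
      rw [h2]
      exact hgU
    obtain ⟨ε, hε, hball⟩ := Metric.isOpen_iff.1 hV 0 h0V
    have hu : ε / 2 ∈ Metric.ball (0 : ℝ) ε := by
      rw [Metric.mem_ball, Real.dist_eq, sub_zero, abs_of_pos (by linarith)]
      linarith
    have hu' : -(ε / 2) ∈ Metric.ball (0 : ℝ) ε := by
      rw [Metric.mem_ball, Real.dist_eq, sub_zero, abs_neg, abs_of_pos (by linarith)]
      linarith
    have key : ∀ t : ℝ, t ∈ Metric.ball (0 : ℝ) ε →
        B * (rC (bst (iR ℝ X) (Real.cosh t) (Real.sinh t)) * iR ℂ Pz * rC (bst (iR ℝ X) (Real.cosh t) (-Real.sinh t))) =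
        (rC (bst (iR ℝ X) (Real.cosh t) (Real.sinh t)) * iR ℂ Pz * rC (bst (iR ℝ X) (Real.cosh t) (-Real.sinh t))) *
          B := by
      intro t ht
      apply hconj
      have h2 := hA _ (hball ht) 1
      have h6 : Pf (g * bst (iR ℝ X) (Real.cosh t) (Real.sinh t)) 1 =
          rC g * (rC (bst (iR ℝ X) (Real.cosh t) (Real.sinh t)) * iR ℂ Pz *
            rC (bst (iR ℝ X) (Real.cosh t) (-Real.sinh t))) * rC (gi g) := by
        rw [Pf, gi_mul_bst hX hg (cs_eq t), rC_mul, rC_mul]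
        simp only [mul_assoc, Pb, PGN.tri_one]
      rw [← h6]
      exact h2
    have k1 := key _ hu
    have k2 := key _ hu'
    rw [Real.cosh_neg, Real.sinh_neg, neg_neg] at k2
    refine comm_X hX hP (Real.cosh_pos _).ne' ?_ k1 k2
    rw [Ne, Real.sinh_eq_zero]
    linarith
  have hs := scalar_of_comm (hXB X1 isBst1) (hXB X2 isBst2) (hXB X3 isBst3)
  obtain ⟨b, hb⟩ : ∃ b, b = B 0 0 := ⟨_, rfl⟩
  rw [← hb] at hs
  have hAc : toC A = b • (1 : Matrix (Fin 7) (Fin 7) ℂ) := by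
    calc toC A = (rC g * rC (gi g)) * toC A * (rC g * rC (gi g)) := by rw [c1, one_mul, mul_one]
      _ = rC g * (rC (gi g) * toC A * rC g) * rC (gi g) := by simp only [mul_assoc]
      _ = _ := by rw [← hB, hs, mul_smul_comm, mul_one, smul_mul_assoc, c1]
  have h00 : ((A 0 0 : ℚ) : ℂ) = b := by
    have h := congrFun (congrFun hAc 0) 0
    rw [Matrix.smul_apply, Matrix.one_apply_eq, smul_eq_mul, mul_one] at h
    exact h
  refine ⟨A 0 0, ?_⟩
  ext i j
  have h := congrFun (congrFun hAc i) j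
  rw [Matrix.smul_apply, smul_eq_mul, ← h00] at h
  rw [Matrix.smul_apply, smul_eq_mul]
  have h1 : ((A i j : ℚ) : ℂ) = ((A 0 0 * (1 : Matrix (Fin 7) (Fin 7) ℚ) i j : ℚ) : ℂ) := by
    push_cast
    rw [show ((A i j : ℚ) : ℂ) = toC A i j from rfl, h, Matrix.one_apply, Matrix.one_apply]
    split_ifs <;> simp
  exact_mod_cast h1

end G2

end MH
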