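import Pool.Agent.Helper2.PGN.K3
import Pool.Agent.Helper94.SH.Tensor
import Pool.Agent.Helper27.PGN.Gen
import Pool.Agent.Helper55.UG.TateGQ

/-!
PrimeGeometricGenus (MP_b8862a_ag), construction (6): the Hodge numbers `2`, `3`, `2` and the group `G_2`. The cross product on
the imaginary split octonions.
-/

set_option linter.unusedSectionVars false

open Matrix

namespace MH

namespace G2

/-- the structure constants of the cross product: `Lz a` is the matrix of `v ↦ e_a × v` -/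
def Lz : Fin 7 → Matrix (Fin 7) (Fin 7) ℤ :=
  ![!![0, 0, 0, 0, 0, 0, 0; 0, 0, -1, 0, 0, 0, 0; 0, 1, 0, 0, 0, 0, 0; 0, 0, 0, 0, -1, 0, 0; 0, 0, 0, 1, 0, 0, 0; 0, 0, 0, 0, 0, 0, 1; 0, 0, 0, 0, 0, -1, 0],
    !![0, 0, 1, 0, 0, 0, 0; 0, 0, 0, 0, 0, 0, 0; -1, 0, 0, 0, 0, 0, 0; 0, 0, 0, 0, 0, -1, 0; 0, 0, 0, 0, 0, 0, -1; 0, 0, 0, 1, 0, 0, 0; 0, 0, 0, 0, 1, 0, 0],
    !![0, -1, 0, 0, 0, 0, 0; 1, 0, 0, 0, 0, 0, 0; 0, 0, 0, 0, 0, 0, 0; 0, 0, 0, 0, 0, 0, -1; 0, 0, 0, 0, 0, 1, 0; 0, 0, 0, 0, -1, 0, 0; 0, 0, 0, 1, 0, 0, 0],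
    !![0, 0, 0, 0, -1, 0, 0; 0, 0, 0, 0, 0, -1, 0; 0, 0, 0, 0, 0, 0, -1; 0, 0, 0, 0, 0, 0, 0; -1, 0, 0, 0, 0, 0, 0; 0, -1, 0, 0, 0, 0, 0; 0, 0, -1, 0, 0, 0, 0],
    !![0, 0, 0, 1, 0, 0, 0; 0, 0, 0, 0, 0, 0, -1; 0, 0, 0, 0, 0, 1, 0; 1, 0, 0, 0, 0, 0, 0; 0, 0, 0, 0, 0, 0, 0; 0, 0, 1, 0, 0, 0, 0; 0, -1, 0, 0, 0, 0, 0],
    !![0, 0, 0, 0, 0, 0, 1; 0, 0, 0, 1, 0, 0, 0; 0, 0, 0, 0, -1, 0, 0; 0, 1, 0, 0, 0, 0, 0; 0, 0, -1, 0, 0, 0, 0; 0, 0, 0, 0, 0, 0, 0; 1, 0, 0, 0, 0, 0, 0],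
    !![0, 0, 0, 0, 0, -1, 0; 0, 0, 0, 0, 1, 0, 0; 0, 0, 0, 1, 0, 0, 0; 0, 0, 1, 0, 0, 0, 0; 0, 1, 0, 0, 0, 0, 0; -1, 0, 0, 0, 0, 0, 0; 0, 0, 0, 0, 0, 0, 0]]

/-- the generators of three boosts -/
def X1 : Matrix (Fin 7) (Fin 7) ℤ :=
  !![0, 0, 0, 0, 0, 0, 0; 0, 0, 0, 1, 0, 0, 0; 0, 0, 0, 0, 1, 0, 0; 0, 1, 0, 0, 0, 0, 0; 0, 0, 1, 0, 0, 0, 0; 0, 0, 0, 0, 0, 0, 0; 0, 0, 0, 0, 0, 0, 0]

/-- the second generator -/
def X2 : Matrix (Fin 7) (Fin 7) ℤ :=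
  !![0, 0, 0, 0, 0, 0, 0; 0, 0, 0, 0, 0, 1, 0; 0, 0, 0, 0, 0, 0, -1; 0, 0, 0, 0, 0, 0, 0; 0, 0, 0, 0, 0, 0, 0; 0, 1, 0, 0, 0, 0, 0; 0, 0, -1, 0, 0, 0, 0]

/-- the third generator -/
def X3 : Matrix (Fin 7) (Fin 7) ℤ :=
  !![0, 0, 0, 1, 0, 0, 0; 0, 0, 0, 0, 0, 0, 0; 0, 0, 0, 0, 0, -1, 0; 1, 0, 0, 0, 0, 0, 0; 0, 0, 0, 0, 0, 0, 0; 0, 0, -1, 0, 0, 0, 0; 0, 0, 0, 0, 0, 0, 0]

/-- the complex structure on the negative part -/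
def Jz : Matrix (Fin 7) (Fin 7) ℤ :=
  !![0, 0, 0, 0, 0, 0, 0; 0, 0, 0, 0, 0, 0, 0; 0, 0, 0, 0, 0, 0, 0; 0, 0, 0, 0, -1, 0, 0; 0, 0, 0, 1, 0, 0, 0; 0, 0, 0, 0, 0, 0, -1; 0, 0, 0, 0, 0, 1, 0]

/-- the signs of the form -/
def qz : Fin 7 → ℤ := ![1, 1, 1, -1, -1, -1, -1]

/-- the form -/
def Qz : Matrix (Fin 7) (Fin 7) ℤ := Matrix.diagonal qz

/-- the projection to the positive part -/
def Pz : Matrix (Fin 7) (Fin 7) ℤ := Matrix.diagonal ![1, 1, 1, 0, 0, 0, 0]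

/-- The properties of the generator of a boost. -/
structure IsBst (X : Matrix (Fin 7) (Fin 7) ℤ) : Prop where
  cube : X * X * X = X
  skew : Xᵀ * Qz = -(Qz * X)
  der : ∀ a, X * Lz a - Lz a * X = ∑ b, X b a • Lz b
  off : Pz * X + X * Pz = X

theorem isBst1 : IsBst X1 := ⟨by decide +kernel, by decide +kernel, by decide +kernel, by decide +kernel⟩
theorem isBst2 : IsBst X2 := ⟨by decide +kernel, by decide +kernel, by decide +kernel, by decide +kernel⟩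
theorem isBst3 : IsBst X3 := ⟨by decide +kernel, by decide +kernel, by decide +kernel, by decide +kernel⟩

theorem Jz_skew : Jzᵀ * Qz = -(Qz * Jz) := by decide +kernel
theorem Jz_der : ∀ a, Jz * Lz a - Lz a * Jz = ∑ b, Jz b a • Lz b := by decide +kernel
theorem Jz_sq : Jz * Jz = Pz - 1 := by decide +kernel
theorem Jz_Pz : Jz * Pz = 0 := by decide +kernel
theorem Pz_Jz : Pz * Jz = 0 := by decide +kernel
theorem Pz_sq : Pz * Pz = Pz := by decide +kernel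
theorem Qz_sq : Qz * Qz = 1 := by decide +kernel
theorem Pz_Qz : Pz * Qz = Qz * Pz := by decide +kernel
theorem Qz_tr : Qzᵀ = Qz := by decide +kernel
theorem Pz_tr : Pzᵀ = Pz := by decide +kernel
theorem Jz_trace : Jz.trace = 0 := by decide +kernel
theorem Pz_trace : Pz.trace = 3 := by decide +kernel

/-- the coordinate projections as polynomials in the squares of the generators -/
theorem proj_eq : ∀ a : Fin 7, ∃ e : Fin 3 → Bool,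
    (if e 0 then X1 * X1 else 1 - X1 * X1) * (if e 1 then X2 * X2 else 1 - X2 * X2) *
      (if e 2 then X3 * X3 else 1 - X3 * X3) = Matrix.single a a 1 := by
  decide +kernel

/-- the trace form on the cross products -/
theorem tr_LL : ∀ a b, (Lz a * Lz b).trace = if a = b then -6 * qz a else 0 := by decide +kernel

end G2

end MH
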