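import Pool.Agent.Helper2.PGN.K3

/-!
PrimeGeometricGenus (MP_b8862a_ag), construction (4): the polarised rational Hodge structure.
-/

set_option linter.unusedSectionVars false

open Matrix
open scoped Kronecker

namespace MH

namespace PGN

variable {ι : Type*} [Fintype ι] [DecidableEq ι] {a : ι → ℂ} {P : ℤ → Matrix ι ι ℂ}

/-- a real matrix as a complex matrix -/
noncomputable def rC {m : Type*} (g : Matrix m m ℝ) : Matrix m m ℂ := g.map (algebraMap ℝ ℂ)

theorem rC_mul {m : Type*} [Fintype m] (g h : Matrix m m ℝ) : rC (g * h) = rC g * rC h := Matrix.map_mul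
theorem rC_one {m : Type*} [Fintype m] [DecidableEq m] : rC (1 : Matrix m m ℝ) = 1 :=
  Matrix.map_one _ (map_zero _) (map_one _)
theorem rC_conj {m : Type*} (g : Matrix m m ℝ) : (rC g).map (starRingEnd ℂ) = rC g := by
  ext i j
  simp only [rC, Matrix.map_apply]
  exact Complex.conj_ofReal _

theorem star_rC_mulVec {m : Type*} [Fintype m] (g : Matrix m m ℝ) (v : m → ℂ) : star (rC g *ᵥ v) = rC g *ᵥ star v := by
  funext i
  simp only [Pi.star_apply, Matrix.mulVec, dotProduct, star_sum]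
  refine Finset.sum_congr rfl fun j _ => ?_
  rw [star_mul']
  congr 1
  exact Complex.conj_ofReal _

/-- conjugation by a real isometry -/
theorem KH.conj' (H : KH a P) {g gi : Matrix ι ι ℝ} (h1 : g * gi = 1) (h2 : gi * g = 1)
    (hg : (rC g)ᵀ * Matrix.diagonal a * rC g = Matrix.diagonal a) : KH a (fun p => rC g * P p * rC gi) := by
  have c1 : rC g * rC gi = 1 := by rw [← rC_mul, h1, rC_one]
  have c2 : rC gi * rC g = 1 := by rw [← rC_mul, h2, rC_one]
  refine ⟨?_, ?_, ?_, ?_, ?_, ?_, ?_⟩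
  · intro p q
    have h3 : rC g * P p * rC gi * (rC g * P q * rC gi) = rC g * (P p * P q) * rC gi := by
      calc _ = rC g * P p * (rC gi * rC g) * P q * rC gi := by simp only [mul_assoc]
        _ = _ := by rw [c2, mul_one]; simp only [mul_assoc]
    rw [h3, H.mul]
    split_ifs
    · rfl
    · rw [mul_zero, zero_mul]
  · intro p hp
    rw [H.supp p hp, mul_zero, zero_mul]
  · rw [← Finset.sum_mul, ← Finset.mul_sum, H.sum, mul_one, c1]
  · intro p
    rw [Matrix.map_mul, Matrix.map_mul, rC_conj, rC_conj, H.conj]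
  · intro p q hpq
    rw [Matrix.transpose_mul, Matrix.transpose_mul]
    have h3 : (rC gi)ᵀ * ((P p)ᵀ * (rC g)ᵀ) * Matrix.diagonal a * (rC g * P q * rC gi) =
        (rC gi)ᵀ * ((P p)ᵀ * ((rC g)ᵀ * Matrix.diagonal a * rC g) * P q) * rC gi := by simp only [mul_assoc]
    rw [h3, hg, H.orth p q hpq, mul_zero, zero_mul]
  · intro p v hv hv0
    obtain ⟨u, hu⟩ : ∃ u, u = rC gi *ᵥ v := ⟨_, rfl⟩
    have hvu : v = rC g *ᵥ u := by rw [hu, Matrix.mulVec_mulVec, c1, Matrix.one_mulVec]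
    have hPu : P p *ᵥ u = u := by
      have h3 := congrArg (fun x => rC gi *ᵥ x) hv
      rw [Matrix.mulVec_mulVec, ← mul_assoc, ← mul_assoc, c2, one_mul, ← Matrix.mulVec_mulVec, ← hu] at h3
      exact h3
    have hu0 : u ≠ 0 := by
      intro h
      rw [h, Matrix.mulVec_zero] at hvu
      exact hv0 hvu
    have h4 := H.pos p u hPu hu0
    have h5 : v ⬝ᵥ (Matrix.diagonal a *ᵥ star v) = u ⬝ᵥ (Matrix.diagonal a *ᵥ star u) := by
      rw [hvu, star_rC_mulVec, Matrix.mulVec_mulVec, ← Matrix.vecMul_transpose, ← Matrix.dotProduct_mulVec,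
        Matrix.mulVec_mulVec, ← mul_assoc, hg]
    rw [h5]
    exact h4
  · rw [mul_assoc, Matrix.trace_mul_comm, mul_assoc, c2, mul_one, H.tr]

/-- the projections of the norm -/
noncomputable def P4 (P : ℤ → Matrix ι ι ℂ) (p : ℤ) : Matrix (ι × ι) (ι × ι) ℂ :=
  Li ι * (P p ⊗ₖ (1 : Matrix ι ι ℂ)) * L ι

theorem kron_one_mulVec (A : Matrix ι ι ℂ) (Y : ι × ι → ℂ) (j : ι) :
    (fun i => ((A ⊗ₖ (1 : Matrix ι ι ℂ)) *ᵥ Y) (i, j)) = A *ᵥ fun i => Y (i, j) := by
  funext i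
  rw [Matrix.mulVec, Matrix.mulVec, dotProduct, dotProduct, Fintype.sum_prod_type]
  refine Finset.sum_congr rfl fun k _ => ?_
  rw [Finset.sum_eq_single j]
  · rw [Matrix.kroneckerMap_apply, Matrix.one_apply_eq, mul_one]
  · intro l _ hl
    rw [Matrix.kroneckerMap_apply, Matrix.one_apply_ne (Ne.symm hl), mul_zero, zero_mul]
  · intro h
    exact absurd (Finset.mem_univ _) h

theorem pp_conj : (pp ι ℂ).map (starRingEnd ℂ) = pp ι ℂ := pp_map (starRingEnd ℂ)
theorem pm_conj : (pm ι ℂ).map (starRingEnd ℂ) = pm ι ℂ := pm_map (starRingEnd ℂ)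

theorem r2_conj : starRingEnd ℂ r2 = r2 := Complex.conj_ofReal _

theorem L_conj : (L ι).map (starRingEnd ℂ) = L ι := by
  rw [L]
  ext p q
  have h1 := congrFun (congrFun (pp_conj (ι := ι)) p) q
  have h2 := congrFun (congrFun (pm_conj (ι := ι)) p) q
  rw [Matrix.map_apply] at h1 h2
  rw [Matrix.map_apply, Matrix.add_apply, Matrix.smul_apply, smul_eq_mul, map_add, map_mul, h1, h2, r2_conj]

theorem Li_conj : (Li ι).map (starRingEnd ℂ) = Li ι := by
  rw [Li]
  ext p q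
  have h1 := congrFun (congrFun (pp_conj (ι := ι)) p) q
  have h2 := congrFun (congrFun (pm_conj (ι := ι)) p) q
  rw [Matrix.map_apply] at h1 h2
  rw [Matrix.map_apply, Matrix.add_apply, Matrix.smul_apply, smul_eq_mul, map_add, map_mul, h1, h2, map_inv₀, r2_conj]

theorem star_L_mulVec (v : ι × ι → ℂ) : star (L ι *ᵥ v) = L ι *ᵥ star v := by
  funext i
  simp only [Pi.star_apply, Matrix.mulVec, dotProduct, star_sum]
  refine Finset.sum_congr rfl fun j _ => ?_
  rw [star_mul']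
  congr 1
  exact congrFun (congrFun (L_conj (ι := ι)) i) j

theorem Q4_symm (i0 i1 : ι) : (Q4 i0 i1)ᵀ = Q4 i0 i1 := by
  rw [Q4, Matrix.transpose_add, Matrix.transpose_add, Matrix.transpose_smul, Matrix.transpose_smul,
    Matrix.transpose_add]
  simp only [Matrix.transpose_mul, Matrix.diagonal_transpose, pp_transpose, pm_transpose, mul_assoc]
  rw [add_comm (pm ι ℚ * (Matrix.diagonal (D1 i0 i1) * pp ι ℚ))]

theorem Dl_kron (i0 i1 : ι) (A B : Matrix ι ι ℂ) : (A ⊗ₖ (1 : Matrix ι ι ℂ))ᵀ * Dl i0 i1 * (B ⊗ₖ (1 : Matrix ι ι ℂ)) =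
    (Aᵀ * Matrix.diagonal (av i0 i1) * B) ⊗ₖ Matrix.diagonal (av' i0 i1) := by
  rw [Dl, ← Matrix.kroneckerMap_transpose, Matrix.transpose_one, ← Matrix.mul_kronecker_mul, one_mul,
    ← Matrix.mul_kronecker_mul, mul_one]

variable {i0 i1 : ι}

/-- the norm of a structure of K3 type is a polarised rational Hodge structure -/
theorem KH.isHW (H : KH (av i0 i1) P) : IsHW 2 (Q4 i0 i1) {0, 1, 2} (P4 P) := by
  refine ⟨?_, ?_, ?_, ?_, ?_, ?_, ?_⟩
  · intro p q
    have h3 : P4 P p * P4 P q = Li ι * ((P p ⊗ₖ (1 : Matrix ι ι ℂ)) * (P q ⊗ₖ (1 : Matrix ι ι ℂ))) * L ι := by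
      calc _ = Li ι * (P p ⊗ₖ (1 : Matrix ι ι ℂ)) * (L ι * Li ι) * (P q ⊗ₖ (1 : Matrix ι ι ℂ)) * L ι := by
            simp only [P4, mul_assoc]
        _ = _ := by rw [L_mul_Li, mul_one]; simp only [mul_assoc]
    rw [h3, ← Matrix.mul_kronecker_mul, mul_one, H.mul]
    split_ifs
    · rfl
    · rw [Matrix.zero_kronecker, mul_zero, zero_mul]
  · intro p hp
    rw [P4, H.supp p hp, Matrix.zero_kronecker, mul_zero, zero_mul]
  · have h3 : ∑ p ∈ ({0, 1, 2} : Finset ℤ), (P p ⊗ₖ (1 : Matrix ι ι ℂ)) =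
        (∑ p ∈ ({0, 1, 2} : Finset ℤ), P p) ⊗ₖ (1 : Matrix ι ι ℂ) := by
      ext i j
      simp only [Matrix.sum_apply, Matrix.kroneckerMap_apply, Finset.sum_mul]
    simp only [P4]
    rw [← Finset.sum_mul, ← Finset.mul_sum, h3, H.sum, Matrix.one_kronecker_one, mul_one, Li_mul_L]
  · intro p
    have h3 : (P p ⊗ₖ (1 : Matrix ι ι ℂ)).map (starRingEnd ℂ) = P (2 - p) ⊗ₖ (1 : Matrix ι ι ℂ) := by
      ext i j
      rw [Matrix.map_apply, Matrix.kroneckerMap_apply, Matrix.kroneckerMap_apply, map_mul, ← H.conj p, Matrix.map_apply]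
      congr 1
      rw [Matrix.one_apply]
      split_ifs <;> simp
    rw [P4, Matrix.map_mul, Matrix.map_mul, L_conj, Li_conj, h3]
    rfl
  · rw [Q4_symm]
    norm_num
  · intro p q hpq
    have h3 : (P4 P p)ᵀ * toC (Q4 i0 i1) * P4 P q =
        L ι * ((P p ⊗ₖ (1 : Matrix ι ι ℂ))ᵀ * Dl i0 i1 * (P q ⊗ₖ (1 : Matrix ι ι ℂ))) * L ι := by
      rw [toC_Q4, P4, P4, Matrix.transpose_mul, Matrix.transpose_mul, L_transpose, Li_transpose]
      calc _ = L ι * (P p ⊗ₖ (1 : Matrix ι ι ℂ))ᵀ * (Li ι * L ι) * Dl i0 i1 * (L ι * Li ι) *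
              (P q ⊗ₖ (1 : Matrix ι ι ℂ)) * L ι := by simp only [mul_assoc]
        _ = _ := by rw [L_mul_Li, Li_mul_L, mul_one, mul_one]; simp only [mul_assoc]
    rw [h3, Dl_kron, H.orth p q hpq, Matrix.zero_kronecker, mul_zero, zero_mul]
  · intro p v hv hv0
    obtain ⟨Y, hY⟩ : ∃ Y, Y = L ι *ᵥ v := ⟨_, rfl⟩
    have hPY : (P p ⊗ₖ (1 : Matrix ι ι ℂ)) *ᵥ Y = Y := by
      have h3 := congrArg (fun x => L ι *ᵥ x) hv
      rw [P4, Matrix.mulVec_mulVec, ← mul_assoc, ← mul_assoc, L_mul_Li, one_mul, ← Matrix.mulVec_mulVec, ← hY] at h3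
      exact h3
    have hY0 : Y ≠ 0 := by
      intro h
      apply hv0
      rw [← Matrix.one_mulVec v, ← Li_mul_L, ← Matrix.mulVec_mulVec, ← hY, h, Matrix.mulVec_zero]
    have hcol : ∀ j, P p *ᵥ (fun i => Y (i, j)) = fun i => Y (i, j) := by
      intro j
      rw [← kron_one_mulVec, hPY]
    have h5 : v ⬝ᵥ (toC (Q4 i0 i1) *ᵥ star v) =
        ∑ j, (ar' i0 i1 j : ℂ) * ((fun i => Y (i, j)) ⬝ᵥ (Matrix.diagonal (av i0 i1) *ᵥ star (fun i => Y (i, j)))) := by
      have h6 : v ⬝ᵥ (toC (Q4 i0 i1) *ᵥ star v) = Y ⬝ᵥ (Dl i0 i1 *ᵥ star Y) := by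
        rw [hY, star_L_mulVec, toC_Q4, ← Matrix.mulVec_mulVec, ← Matrix.mulVec_mulVec, Matrix.dotProduct_mulVec,
          ← Matrix.mulVec_transpose, L_transpose]
      rw [h6, dotProduct, Fintype.sum_prod_type_right]
      refine Finset.sum_congr rfl fun j _ => ?_
      rw [dotProduct, Finset.mul_sum]
      refine Finset.sum_congr rfl fun i _ => ?_
      rw [Dl, Matrix.diagonal_kronecker_diagonal, Matrix.mulVec_diagonal, Matrix.mulVec_diagonal, av'_eq]
      simp only [Pi.star_apply]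
      ring
    rw [h5, Finset.mul_sum, Complex.re_sum]
    have hnz : ∃ j, (fun i => Y (i, j)) ≠ 0 := by
      by_contra hcon
      push Not at hcon
      exact hY0 (funext fun ij => congrFun (hcon ij.2) ij.1)
    have hterm : ∀ j, (Complex.I ^ (2 * p - 2) * ((ar' i0 i1 j : ℂ) *
        ((fun i => Y (i, j)) ⬝ᵥ (Matrix.diagonal (av i0 i1) *ᵥ star (fun i => Y (i, j)))))).re =
        ar' i0 i1 j * (Complex.I ^ (2 * p - 2) *
        ((fun i => Y (i, j)) ⬝ᵥ (Matrix.diagonal (av i0 i1) *ᵥ star (fun i => Y (i, j))))).re := by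
      intro j
      rw [← Complex.re_ofReal_mul]
      congr 1
      ring
    obtain ⟨j, hj⟩ := hnz
    refine Finset.sum_pos' (fun k _ => ?_) ⟨j, Finset.mem_univ j, ?_⟩
    · rw [hterm]
      by_cases hk : (fun i => Y (i, k)) = 0
      · rw [hk]
        simp
      · exact le_of_lt (mul_pos (ar'_pos i0 i1 k) (H.pos p _ (hcol k) hk))
    · rw [hterm]
      exact mul_pos (ar'_pos i0 i1 j) (H.pos p _ (hcol j) hj)

theorem P4_trace (p : ℤ) : (P4 P p).trace = (P p).trace * Fintype.card ι := by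
  rw [P4, mul_assoc, Matrix.trace_mul_comm, mul_assoc, L_mul_Li, mul_one, Matrix.trace_kronecker, Matrix.trace_one]

/-- the ranks of the projections -/
theorem KH.rank2 (H : KH (av i0 i1) P) : (P4 P 2).rank = Fintype.card ι := by
  have h1 := H.isHW
  have h2 := trace_eq_rank (P := P4 P 2) (by rw [h1.mul, if_pos rfl])
  rw [P4_trace, H.tr, one_mul] at h2
  exact_mod_cast h2.symm

theorem KH.rank0 (H : KH (av i0 i1) P) : (P4 P 0).rank = Fintype.card ι := by
  have h1 := H.isHW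
  have h2 := trace_eq_rank (P := P4 P 0) (by rw [h1.mul, if_pos rfl])
  have h3 : (P 0).trace = 1 := by
    have h4 := H.conj 2
    rw [sub_self] at h4
    rw [← h4]
    have h5 : ((P 2).map (starRingEnd ℂ)).trace = starRingEnd ℂ ((P 2).trace) := by
      simp [Matrix.trace, map_sum]
    rw [h5, H.tr, map_one]
  rw [P4_trace, h3, one_mul] at h2
  exact_mod_cast h2.symm

theorem KH.rank1 (H : KH (av i0 i1) P) : (P4 P 1).rank = Fintype.card ι ^ 2 - 2 * Fintype.card ι := by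
  have h1 := H.isHW
  have h2 := trace_eq_rank (P := P4 P 1) (by rw [h1.mul, if_pos rfl])
  have h5 : (P4 P 0).rank + ((P4 P 1).rank + (P4 P 2).rank) = Fintype.card ι ^ 2 := by
    have h6 := congrArg Matrix.trace h1.sum
    rw [Matrix.trace_sum, Finset.sum_insert (by decide), Finset.sum_pair (by decide), Matrix.trace_one,
      trace_eq_rank (P := P4 P 0) (by rw [h1.mul, if_pos rfl]), h2,
      trace_eq_rank (P := P4 P 2) (by rw [h1.mul, if_pos rfl]), Fintype.card_prod] at h6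
    rw [sq]
    exact_mod_cast h6
  rw [H.rank0, H.rank2] at h5
  omega

end PGN

end MH
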