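import Pool.Agent.Helper2.PGN.Defs

/-!
PrimeGeometricGenus (MP_b8862a_ag), construction (4): a structure of K3 type over the real numbers.
-/

set_option linter.unusedSectionVars false

open Matrix
open scoped Kronecker

namespace MH

namespace PGN

variable {ι : Type*} [Fintype ι] [DecidableEq ι]

/-- Three projections with values `A`, `B`, `C` at `2`, `0`, `1`. -/
def tri {m : Type*} (A B C : Matrix m m ℂ) (p : ℤ) : Matrix m m ℂ :=
  if p = 2 then A else if p = 0 then B else if p = 1 then C else 0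

theorem tri_two {m : Type*} (A B C : Matrix m m ℂ) : tri A B C 2 = A := if_pos rfl
theorem tri_zero {m : Type*} (A B C : Matrix m m ℂ) : tri A B C 0 = B := by
  rw [tri, if_neg (by norm_num), if_pos rfl]
theorem tri_one {m : Type*} (A B C : Matrix m m ℂ) : tri A B C 1 = C := by
  rw [tri, if_neg (by norm_num), if_neg (by norm_num), if_pos rfl]
theorem tri_else {m : Type*} (A B C : Matrix m m ℂ) {p : ℤ} (h2 : p ≠ 2) (h0 : p ≠ 0) (h1 : p ≠ 1) : tri A B C p = 0 := by
  rw [tri, if_neg h2, if_neg h0, if_neg h1]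

/-- A structure of weight two on `ℂ ^ ι` polarised by the diagonal form with the coefficients `a`, with the Hodge numbers
`1`, `card ι - 2`, `1`. -/
structure KH (a : ι → ℂ) (P : ℤ → Matrix ι ι ℂ) : Prop where
  mul : ∀ p q, P p * P q = if p = q then P p else 0
  supp : ∀ p, p ∉ ({0, 1, 2} : Finset ℤ) → P p = 0
  sum : ∑ p ∈ ({0, 1, 2} : Finset ℤ), P p = 1
  conj : ∀ p, (P p).map (starRingEnd ℂ) = P (2 - p)
  orth : ∀ p q, p + q ≠ 2 → (P p)ᵀ * Matrix.diagonal a * P q = 0
  pos : ∀ p (v : ι → ℂ), P p *ᵥ v = v → v ≠ 0 →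
    0 < (Complex.I ^ (2 * p - 2) * (v ⬝ᵥ (Matrix.diagonal a *ᵥ star v))).re
  tr : (P 2).trace = 1

/-- the isotropic vector -/
noncomputable def om (i0 i1 : ι) (i : ι) : ℂ := if i = i0 then 1 else if i = i1 then Complex.I else 0

/-- the base point -/
noncomputable def Pb (i0 i1 : ι) : ℤ → Matrix ι ι ℂ :=
  tri ((1 / 2 : ℂ) • vecMulVec (om i0 i1) (star (om i0 i1))) ((1 / 2 : ℂ) • vecMulVec (star (om i0 i1)) (om i0 i1))
    (Matrix.diagonal fun i => 1 - (chi i0 i1 i : ℂ))

/-- the real coefficients -/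
noncomputable def ar (i0 i1 : ι) (i : ι) : ℝ := if i = i0 ∨ i = i1 then -Real.sqrt 2 else 1

/-- the real coefficients at the second place -/
noncomputable def ar' (i0 i1 : ι) (i : ι) : ℝ := if i = i0 ∨ i = i1 then Real.sqrt 2 else 1

theorem av_eq (i0 i1 : ι) (i : ι) : av i0 i1 i = (ar i0 i1 i : ℂ) := by
  rw [av, ar, chi]
  split_ifs
  · simp [r2]
  · simp

theorem av'_eq (i0 i1 : ι) (i : ι) : av' i0 i1 i = (ar' i0 i1 i : ℂ) := by
  rw [av', ar', chi]
  split_ifs
  · simp [r2]
  · simp

theorem ar'_pos (i0 i1 : ι) (i : ι) : 0 < ar' i0 i1 i := by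
  rw [ar']
  split_ifs
  · exact Real.sqrt_pos.2 (by norm_num)
  · norm_num

/-- the value of the form on a vector and its conjugate -/
theorem form_eq {m : Type*} [Fintype m] [DecidableEq m] {a : m → ℂ} {b : m → ℝ} (hab : ∀ i, a i = (b i : ℂ)) (v : m → ℂ) :
    v ⬝ᵥ (Matrix.diagonal a *ᵥ star v) = ((∑ i, b i * Complex.normSq (v i) : ℝ) : ℂ) := by
  rw [dotProduct, Complex.ofReal_sum]
  refine Finset.sum_congr rfl fun i _ => ?_
  rw [Matrix.mulVec_diagonal, hab, Pi.star_apply, Complex.star_def, Complex.ofReal_mul, ← Complex.mul_conj]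
  ring

variable {i0 i1 : ι}

theorem om_sum (h01 : i0 ≠ i1) (f : ι → ℂ) : ∑ i, om i0 i1 i * f i = f i0 + Complex.I * f i1 := by
  rw [Fintype.sum_eq_add i0 i1 h01]
  · rw [om, om, if_pos rfl, if_neg (Ne.symm h01), if_pos rfl, one_mul]
  · rintro i ⟨h0, h1⟩
    rw [om, if_neg h0, if_neg h1, zero_mul]

theorem star_om_sum (h01 : i0 ≠ i1) (f : ι → ℂ) : ∑ i, star (om i0 i1) i * f i = f i0 - Complex.I * f i1 := by
  rw [Fintype.sum_eq_add i0 i1 h01]
  · rw [Pi.star_apply, Pi.star_apply, om, om, if_pos rfl, if_neg (Ne.symm h01), if_pos rfl, star_one, one_mul,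
      Complex.star_def, Complex.conj_I]
    ring
  · rintro i ⟨h0, h1⟩
    rw [Pi.star_apply, om, if_neg h0, if_neg h1, star_zero, zero_mul]

theorem om_i0 : om i0 i1 i0 = 1 := if_pos rfl
theorem om_i1 (h01 : i0 ≠ i1) : om i0 i1 i1 = Complex.I := by rw [om, if_neg (Ne.symm h01), if_pos rfl]

theorem om_dot_om (h01 : i0 ≠ i1) : om i0 i1 ⬝ᵥ om i0 i1 = 0 := by
  rw [dotProduct, om_sum h01, om_i0, om_i1 h01, Complex.I_mul_I]
  ring

theorem star_om_dot_om (h01 : i0 ≠ i1) : star (om i0 i1) ⬝ᵥ om i0 i1 = 2 := by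
  rw [dotProduct, star_om_sum h01, om_i0, om_i1 h01, Complex.I_mul_I]
  ring

theorem om_dot_star_om (h01 : i0 ≠ i1) : om i0 i1 ⬝ᵥ star (om i0 i1) = 2 := by
  rw [dotProduct_comm, star_om_dot_om h01]

theorem star_om_dot_star_om (h01 : i0 ≠ i1) : star (om i0 i1) ⬝ᵥ star (om i0 i1) = 0 := by
  rw [dotProduct, star_om_sum h01, Pi.star_apply, Pi.star_apply, om_i0, om_i1 h01, star_one, Complex.star_def,
    Complex.conj_I]
  linear_combination Complex.I_mul_I

/-- the sum of the two outer projections -/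
theorem outer_sum (h01 : i0 ≠ i1) : (1 / 2 : ℂ) • vecMulVec (om i0 i1) (star (om i0 i1)) +
    (1 / 2 : ℂ) • vecMulVec (star (om i0 i1)) (om i0 i1) = Matrix.diagonal fun i => (chi i0 i1 i : ℂ) := by
  ext i j
  simp only [Matrix.add_apply, Matrix.smul_apply, Matrix.vecMulVec_apply, smul_eq_mul, Matrix.diagonal_apply, chi,
    Pi.star_apply, om, Complex.star_def]
  by_cases hi0 : i = i0
  · subst hi0
    by_cases hj0 : j = i
    · subst hj0
      simp
      norm_num
    · by_cases hj1 : j = i1
      · subst hj1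
        simp [hj0, Ne.symm hj0]
      · simp [hj0, hj1, Ne.symm hj0]
  · by_cases hi1 : i = i1
    · subst hi1
      by_cases hj0 : j = i0
      · subst hj0
        simp [hi0]
      · by_cases hj1 : j = i
        · subst hj1
          simp [hi0]
          norm_num
        · simp [hj0, hj1, hi0, Ne.symm hj1]
    · simp [hi0, hi1]

theorem vmv_mul' {m : Type*} [Fintype m] (a b c d : m → ℂ) :
    vecMulVec a b * vecMulVec c d = (b ⬝ᵥ c) • vecMulVec a d := by
  ext i j
  rw [Matrix.mul_apply, Matrix.smul_apply, Matrix.vecMulVec_apply, smul_eq_mul, dotProduct, Finset.sum_mul]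
  refine Finset.sum_congr rfl fun k _ => ?_
  rw [Matrix.vecMulVec_apply, Matrix.vecMulVec_apply]
  ring

theorem tri_mul {m : Type*} [Fintype m] {A B C : Matrix m m ℂ} (AA : A * A = A) (BB : B * B = B) (CC : C * C = C)
    (AB : A * B = 0) (BA : B * A = 0) (AC : A * C = 0) (CA : C * A = 0) (BC : B * C = 0) (CB : C * B = 0) (p q : ℤ) :
    tri A B C p * tri A B C q = if p = q then tri A B C p else 0 := by
  by_cases p2 : p = 2
  · subst p2
    rw [tri_two]
    by_cases q2 : q = 2
    · subst q2; rw [tri_two, if_pos rfl, AA]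
    · rw [if_neg (Ne.symm q2)]
      by_cases q0 : q = 0
      · subst q0; rw [tri_zero, AB]
      · by_cases q1 : q = 1
        · subst q1; rw [tri_one, AC]
        · rw [tri_else _ _ _ q2 q0 q1, mul_zero]
  · by_cases p0 : p = 0
    · subst p0
      rw [tri_zero]
      by_cases q0 : q = 0
      · subst q0; rw [tri_zero, if_pos rfl, BB]
      · rw [if_neg (Ne.symm q0)]
        by_cases q2 : q = 2
        · subst q2; rw [tri_two, BA]
        · by_cases q1 : q = 1
          · subst q1; rw [tri_one, BC]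
          · rw [tri_else _ _ _ q2 q0 q1, mul_zero]
    · by_cases p1 : p = 1
      · subst p1
        rw [tri_one]
        by_cases q1 : q = 1
        · subst q1; rw [tri_one, if_pos rfl, CC]
        · rw [if_neg (Ne.symm q1)]
          by_cases q2 : q = 2
          · subst q2; rw [tri_two, CA]
          · by_cases q0 : q = 0
            · subst q0; rw [tri_zero, CB]
            · rw [tri_else _ _ _ q2 q0 q1, mul_zero]
      · rw [tri_else _ _ _ p2 p0 p1, zero_mul, ite_self]

theorem tri_supp {m : Type*} (A B C : Matrix m m ℂ) (p : ℤ) (hp : p ∉ ({0, 1, 2} : Finset ℤ)) : tri A B C p = 0 := by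
  simp only [Finset.mem_insert, Finset.mem_singleton, not_or] at hp
  exact tri_else _ _ _ hp.2.2 hp.1 hp.2.1

theorem tri_sum {m : Type*} (A B C : Matrix m m ℂ) : ∑ p ∈ ({0, 1, 2} : Finset ℤ), tri A B C p = B + (C + A) := by
  rw [Finset.sum_insert (by decide), Finset.sum_pair (by decide), tri_zero, tri_one, tri_two]

/-- the base point is a structure of K3 type -/
theorem kh_base (h01 : i0 ≠ i1) : KH (av i0 i1) (Pb i0 i1) := by
  obtain ⟨A, hA⟩ : ∃ A, A = (1 / 2 : ℂ) • vecMulVec (om i0 i1) (star (om i0 i1)) := ⟨_, rfl⟩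
  obtain ⟨B, hB⟩ : ∃ B, B = (1 / 2 : ℂ) • vecMulVec (star (om i0 i1)) (om i0 i1) := ⟨_, rfl⟩
  obtain ⟨C, hC⟩ : ∃ C : Matrix ι ι ℂ, C = Matrix.diagonal fun i => 1 - (chi i0 i1 i : ℂ) := ⟨_, rfl⟩
  have hP : Pb i0 i1 = tri A B C := by rw [hA, hB, hC]; rfl
  have hAB : A + B = Matrix.diagonal fun i => (chi i0 i1 i : ℂ) := by rw [hA, hB]; exact outer_sum h01
  have hC1 : C = 1 - (A + B) := by
    rw [hC, hAB]
    ext i j
    rw [Matrix.sub_apply, Matrix.one_apply, Matrix.diagonal_apply, Matrix.diagonal_apply]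
    split_ifs <;> simp
  have AA : A * A = A := by
    rw [hA, smul_mul_smul_comm, vmv_mul', star_om_dot_om h01, smul_smul]
    norm_num
  have BB : B * B = B := by
    rw [hB, smul_mul_smul_comm, vmv_mul', om_dot_star_om h01, smul_smul]
    norm_num
  have AB : A * B = 0 := by
    rw [hA, hB, smul_mul_smul_comm, vmv_mul', star_om_dot_star_om h01, zero_smul, smul_zero]
  have BA : B * A = 0 := by
    rw [hA, hB, smul_mul_smul_comm, vmv_mul', om_dot_om h01, zero_smul, smul_zero]
  have AC : A * C = 0 := by rw [hC1, mul_sub, mul_add, AA, AB, add_zero, mul_one, sub_self]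
  have CA : C * A = 0 := by rw [hC1, sub_mul, add_mul, AA, BA, add_zero, one_mul, sub_self]
  have BC : B * C = 0 := by rw [hC1, mul_sub, mul_add, BB, BA, zero_add, mul_one, sub_self]
  have CB : C * B = 0 := by rw [hC1, sub_mul, add_mul, BB, AB, zero_add, one_mul, sub_self]
  have CC : C * C = C := by
    nth_rw 2 [hC1]
    rw [mul_sub, mul_add, CA, CB, add_zero, mul_one, sub_zero]
  have cA : A.map (starRingEnd ℂ) = B := by
    ext i j
    simp only [hA, hB, Matrix.map_apply, Matrix.smul_apply, Matrix.vecMulVec_apply, smul_eq_mul, map_mul, Pi.star_apply,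
      Complex.star_def, Complex.conj_conj, map_div₀, map_one, map_ofNat]
  have cB : B.map (starRingEnd ℂ) = A := by
    ext i j
    simp only [hA, hB, Matrix.map_apply, Matrix.smul_apply, Matrix.vecMulVec_apply, smul_eq_mul, map_mul, Pi.star_apply,
      Complex.star_def, Complex.conj_conj, map_div₀, map_one, map_ofNat]
  have cC : C.map (starRingEnd ℂ) = C := by
    ext i j
    rw [hC, Matrix.map_apply, Matrix.diagonal_apply]
    split_ifs
    · rw [map_sub, map_one]
      congr 1
      exact Complex.conj_ofReal _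
    · exact map_zero _
  -- the form on the outer pieces
  have hDA : ∀ v : ι → ℂ, (∀ i, i ≠ i0 → i ≠ i1 → v i = 0) → Matrix.diagonal (av i0 i1) *ᵥ v = (-r2) • v := by
    intro v hv
    funext i
    rw [Matrix.mulVec_diagonal, Pi.smul_apply, smul_eq_mul]
    by_cases h : i = i0 ∨ i = i1
    · rw [av, chi, if_pos h]
      push_cast
      ring
    · rw [not_or] at h
      rw [hv i h.1 h.2, mul_zero, mul_zero]
  have hom : ∀ i, i ≠ i0 → i ≠ i1 → om i0 i1 i = 0 := fun i h0 h1 => by rw [om, if_neg h0, if_neg h1]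
  have hom' : ∀ i, i ≠ i0 → i ≠ i1 → star (om i0 i1) i = 0 := fun i h0 h1 => by
    rw [Pi.star_apply, hom i h0 h1, star_zero]
  have DA : Matrix.diagonal (av i0 i1) * A = (-r2) • A := by
    rw [hA, mul_smul_comm, Matrix.mul_vecMulVec, hDA _ hom, Matrix.smul_vecMulVec, smul_comm]
  have DB : Matrix.diagonal (av i0 i1) * B = (-r2) • B := by
    rw [hB, mul_smul_comm, Matrix.mul_vecMulVec, hDA _ hom', Matrix.smul_vecMulVec, smul_comm]
  have tA : Aᵀ = B := by
    rw [hA, hB, Matrix.transpose_smul, Matrix.transpose_vecMulVec]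
  have tB : Bᵀ = A := by
    rw [hA, hB, Matrix.transpose_smul, Matrix.transpose_vecMulVec]
  have tC : Cᵀ = C := by rw [hC, Matrix.diagonal_transpose]
  have DC : C * Matrix.diagonal (av i0 i1) = Matrix.diagonal (av i0 i1) * C := by
    rw [hC, Matrix.diagonal_mul_diagonal, Matrix.diagonal_mul_diagonal]
    congr 1
    funext i
    exact mul_comm _ _
  have AD : A * Matrix.diagonal (av i0 i1) = (-r2) • A := by
    have h1 := congrArg Matrix.transpose DB
    rwa [Matrix.transpose_mul, Matrix.transpose_smul, tB, Matrix.diagonal_transpose] at h1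
  have BD : B * Matrix.diagonal (av i0 i1) = (-r2) • B := by
    have h1 := congrArg Matrix.transpose DA
    rwa [Matrix.transpose_mul, Matrix.transpose_smul, tA, Matrix.diagonal_transpose] at h1
  refine ⟨?_, ?_, ?_, ?_, ?_, ?_, ?_⟩
  · intro p q
    rw [hP]
    exact tri_mul AA BB CC AB BA AC CA BC CB p q
  · intro p hp
    rw [hP]
    exact tri_supp A B C p hp
  · rw [hP, tri_sum, hC1]
    abel
  · intro p
    rw [hP]
    by_cases p2 : p = 2
    · subst p2; rw [tri_two, sub_self, tri_zero, cA]
    · by_cases p0 : p = 0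
      · subst p0; rw [tri_zero, sub_zero, tri_two, cB]
      · by_cases p1 : p = 1
        · subst p1
          rw [tri_one, cC]
          norm_num
          rw [tri_one]
        · rw [tri_else _ _ _ p2 p0 p1, tri_else _ _ _ (by omega) (by omega) (by omega),
            Matrix.map_zero _ (map_zero _)]
  · intro p q hpq
    rw [hP]
    by_cases p2 : p = 2
    · subst p2
      rw [tri_two, tA, BD, smul_mul_assoc]
      by_cases q2 : q = 2
      · subst q2; rw [tri_two, BA, smul_zero]
      · by_cases q1 : q = 1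
        · subst q1; rw [tri_one, BC, smul_zero]
        · rw [tri_else _ _ _ q2 (by omega) q1, mul_zero, smul_zero]
    · by_cases p0 : p = 0
      · subst p0
        rw [tri_zero, tB, AD, smul_mul_assoc]
        by_cases q0 : q = 0
        · subst q0; rw [tri_zero, AB, smul_zero]
        · by_cases q1 : q = 1
          · subst q1; rw [tri_one, AC, smul_zero]
          · rw [tri_else _ _ _ (by omega) q0 q1, mul_zero, smul_zero]
      · by_cases p1 : p = 1
        · subst p1
          rw [tri_one, tC, DC, mul_assoc]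
          by_cases q2 : q = 2
          · subst q2; rw [tri_two, CA, mul_zero]
          · by_cases q0 : q = 0
            · subst q0; rw [tri_zero, CB, mul_zero]
            · rw [tri_else _ _ _ q2 q0 (by omega), mul_zero, mul_zero]
        · rw [tri_else _ _ _ p2 p0 p1, Matrix.transpose_zero, zero_mul, zero_mul]
  · intro p v hv hv0
    rw [form_eq (av_eq i0 i1)]
    -- the value of `v` outside
    have hnz : ∃ i, v i ≠ 0 := by
      by_contra hcon
      push Not at hcon
      exact hv0 (funext hcon)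
    have hC0 : (C *ᵥ v = 0) → ∀ i, i ≠ i0 → i ≠ i1 → v i = 0 := by
      intro h i h0 h1
      have h2 := congrFun h i
      rw [hC, Matrix.mulVec_diagonal, chi, if_neg (by tauto), Pi.zero_apply] at h2
      simpa using h2
    have hout : (∀ i, i ≠ i0 → i ≠ i1 → v i = 0) →
        0 < -(∑ i, ar i0 i1 i * Complex.normSq (v i)) := by
      intro h
      rw [← Finset.sum_neg_distrib]
      have hterm : ∀ i, -(ar i0 i1 i * Complex.normSq (v i)) = Real.sqrt 2 * Complex.normSq (v i) := by
        intro i
        by_cases hi : i = i0 ∨ i = i1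
        · rw [ar, if_pos hi]; ring
        · rw [not_or] at hi
          rw [h i hi.1 hi.2, map_zero]; ring
      obtain ⟨i, hi⟩ := hnz
      refine Finset.sum_pos' (fun j _ => ?_) ⟨i, Finset.mem_univ i, ?_⟩
      · rw [hterm]
        exact mul_nonneg (Real.sqrt_nonneg 2) (Complex.normSq_nonneg _)
      · rw [hterm]
        exact mul_pos (Real.sqrt_pos.2 (by norm_num)) (Complex.normSq_pos.2 hi)
    rw [hP] at hv
    by_cases p2 : p = 2
    · subst p2
      rw [tri_two] at hv
      have h1 : C *ᵥ v = 0 := by rw [← hv, Matrix.mulVec_mulVec, CA, Matrix.zero_mulVec]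
      have h2 : Complex.I ^ (2 * (2 : ℤ) - 2) = -1 := by norm_num [Complex.I_sq]
      rw [h2, neg_one_mul, ← Complex.ofReal_neg, Complex.ofReal_re]
      exact hout (hC0 h1)
    · by_cases p0 : p = 0
      · subst p0
        rw [tri_zero] at hv
        have h1 : C *ᵥ v = 0 := by rw [← hv, Matrix.mulVec_mulVec, CB, Matrix.zero_mulVec]
        have h2 : Complex.I ^ (2 * (0 : ℤ) - 2) = -1 := by
          norm_num
        rw [h2, neg_one_mul, ← Complex.ofReal_neg, Complex.ofReal_re]
        exact hout (hC0 h1)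
      · by_cases p1 : p = 1
        · subst p1
          rw [tri_one] at hv
          have h2 : Complex.I ^ (2 * (1 : ℤ) - 2) = 1 := by norm_num
          rw [h2, one_mul, Complex.ofReal_re]
          have hin : ∀ i, (i = i0 ∨ i = i1) → v i = 0 := by
            intro i hi
            rw [← hv, hC, Matrix.mulVec_diagonal, chi, if_pos hi]
            simp
          obtain ⟨i, hi⟩ := hnz
          have hterm : ∀ j, ar i0 i1 j * Complex.normSq (v j) = Complex.normSq (v j) := by
            intro j
            by_cases hj : j = i0 ∨ j = i1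
            · rw [hin j hj, map_zero, mul_zero]
            · rw [ar, if_neg hj, one_mul]
          refine Finset.sum_pos' (fun j _ => ?_) ⟨i, Finset.mem_univ i, ?_⟩
          · rw [hterm]; exact Complex.normSq_nonneg _
          · rw [hterm]; exact Complex.normSq_pos.2 hi
        · rw [tri_else _ _ _ p2 p0 p1, Matrix.zero_mulVec] at hv
          exact absurd hv.symm hv0
  · rw [hP, tri_two, hA, Matrix.trace_smul, Matrix.trace_vecMulVec, om_dot_star_om h01, smul_eq_mul]
    norm_num

end PGN

end MH
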